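import Pool.Agent.L5helper60.SR.Alg

set_option autoImplicit false

/-!
# The algorithm
-/

namespace Pool.Agent.L5helper60.MO

open Function
open Pool.Agent.Lib.CX Pool.Agent.Lib.helper22.CXDet
open Pool.Agent.Lib.Par (rk rk_eq pt_rk ls_opt)
open Pool.Agent.L5helper60.SR (Inp dim mat ent cden ient et)

/-- the number of variables -/
def nv (L : Inp) : ℕ := L.length - 1

/-- the list of the unknowns -/
def us (L : Inp) : List (ℕ × ℕ × ℕ) :=
  ((List.range (dim L)).flatMap fun s => (List.range (dim L)).map fun u => (0, s, u)) ++
  (((List.range (dim L)).flatMap fun s => (List.range (dim L)).map fun u => (1, s, u)) ++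
    ((List.range (nv L)).flatMap fun i => (List.range (nv L + 1)).map fun l => (2, i, l)))

/-- the coefficient of an unknown in an equation, times the common denominator -/
def ce (L : Inp) (u : ℕ × ℕ × ℕ) (l s t : ℕ) : ℤ :=
  if u.1 = 0 then (if s = u.2.1 then ient L l u.2.2 t else 0) else
  if u.1 = 1 then (if t = u.2.2 then ient L l s u.2.1 else 0) else
  (if u.2.2 = l then - ient L (u.2.1 + 1) s t else 0)

/-- the coefficient of an unknown in the vector at a point -/
def cv (x : List ℕ) (u : ℕ × ℕ × ℕ) (i : ℕ) : ℤ :=
  if u.1 = 2 then (if u.2.1 = i then (if u.2.2 = 0 then 1 else (x.getD (u.2.2 - 1) 0 : ℤ)) else 0)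
  else 0

/-- the scalar product of two columns -/
def gr (L : Inp) (x : List ℕ) (u u' : ℕ × ℕ × ℕ) : ℤ :=
  ((List.range (nv L + 1)).map fun l => ((List.range (dim L)).map fun s =>
    ((List.range (dim L)).map fun t => ce L u l s t * ce L u' l s t).sum).sum).sum +
  ((List.range (nv L)).map fun i => cv x u i * cv x u' i).sum

/-- the table of the scalar products of the columns -/
def gt (L : Inp) (x : List ℕ) : List (List ℤ) := (us L).map fun u => (us L).map fun u' => gr L x u u'

/-- the scalar product of two columns of the equations -/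
def gr₀ (L : Inp) (u u' : ℕ × ℕ × ℕ) : ℤ :=
  ((List.range (nv L + 1)).map fun l => ((List.range (dim L)).map fun s =>
    ((List.range (dim L)).map fun t => ce L u l s t * ce L u' l s t).sum).sum).sum

/-- the table of the scalar products of the columns of the equations -/
def gt₀ (L : Inp) : List (List ℤ) := (us L).map fun u => (us L).map fun u' => gr₀ L u u'

/-- the rank of a table -/
def rnk (n : ℕ) (A : List (List ℤ)) : ℕ :=
  rk (tb n fun r q => ((List.range n).map fun s => en A r s * en A q s).sum)

/-- the potential -/
def ps (L : Inp) (x : List ℕ) : ℕ := (dim L + 1) * rk (gt L x) + rnk (dim L) (et L x)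

/-- the bound for the values of the variables -/
def nb (L : Inp) : ℕ := dim L + nv L + 1

/-- the number of steps -/
def it (L : Inp) : ℕ := (dim L + 1) * ((us L).length + 1)

/-- the points which differ in at most one coordinate -/
def stp (L : Inp) (x : List ℕ) : List (List ℕ) :=
  x :: (List.range (nv L)).flatMap fun i => (List.range (nb L + 1)).map fun v => x.set i v

/-- the points which differ in at most `c` coordinates -/
def cd : ℕ → Inp → List ℕ → List (List ℕ)
  | 0, _, x => [x]
  | c + 1, L, x => (cd c L x).flatMap (stp L)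

/-- the substitution found by the local search -/
def sol (c : ℕ) (L : Inp) : List ℕ :=
  (fun x => ((cd (c + 1) L x).filter (ps L x < ps L ·)).headD x)^[it L] (List.replicate (nv L) 0)

/-- the test of the codimension of the tangent space -/
def flg (c : ℕ) (L : Inp) : Bool := decide (nv L + rk (gt₀ L) ≤ rk (gt L (sol c L)) + c)

/-- the algorithm for the decision problem -/
def alg (c : ℕ) (L : Inp) : Bool :=
  flg c L && decide (rnk (dim L) (et L (sol c L)) < dim L)

section

variable {α : Type} [Enc α] {L : α → Inp} {i j k : α → ℕ} {x : α → List ℕ} {u v : α → ℕ × ℕ × ℕ}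

@[fun_prop] lemma pt_nv (hL : PT L) : PT fun a => nv (L a) := by unfold nv; fun_prop

@[fun_prop] lemma pb_nv (hL : PT L) : PB fun a => nv (L a) := by unfold nv; fun_prop

attribute [local irreducible] ent cden dim ient et nv tb

@[fun_prop] lemma pt_us (hL : PT L) : PT fun a => us (L a) := by unfold us; fun_prop

@[fun_prop] lemma pt_ce (hL : PT L) (hu : PT u) (hi : PT i) (hj : PT j) (hk : PT k) :
    PT fun a => ce (L a) (u a) (i a) (j a) (k a) := by unfold ce; fun_prop

@[fun_prop] lemma pt_cv (hx : PT x) (hu : PT u) (hi : PT i) :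
    PT fun a => cv (x a) (u a) (i a) := by unfold cv; fun_prop

attribute [local irreducible] us ce cv

@[fun_prop] lemma pt_gr (hL : PT L) (hx : PT x) (hu : PT u) (hv : PT v) :
    PT fun a => gr (L a) (x a) (u a) (v a) := by unfold gr; fun_prop

@[fun_prop] lemma pt_gr₀ (hL : PT L) (hu : PT u) (hv : PT v) :
    PT fun a => gr₀ (L a) (u a) (v a) := by unfold gr₀; fun_prop

attribute [local irreducible] gr gr₀

@[fun_prop] lemma pt_gt₀ (hL : PT L) : PT fun a => gt₀ (L a) := by
  unfold gt₀; fun_prop

@[fun_prop] lemma pt_gt (hL : PT L) (hx : PT x) : PT fun a => gt (L a) (x a) := by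
  unfold gt; fun_prop

@[fun_prop] lemma pt_rnk {f : α → List (List ℤ)} (hi : PT i) (hb : PB i) (hf : PT f) :
    PT fun a => rnk (i a) (f a) := by
  unfold rnk en; fun_prop

attribute [local irreducible] gt rnk

@[fun_prop] lemma pt_ps (hL : PT L) (hx : PT x) : PT fun a => ps (L a) (x a) := by
  unfold ps; fun_prop

@[fun_prop] lemma pt_nb (hL : PT L) : PT fun a => nb (L a) := by unfold nb; fun_prop

@[fun_prop] lemma pb_nb (hL : PT L) : PB fun a => nb (L a) := by unfold nb; fun_prop

@[fun_prop] lemma pt_it (hL : PT L) : PT fun a => it (L a) := by unfold it; fun_prop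

@[fun_prop] lemma pb_it (hL : PT L) : PB fun a => it (L a) := by unfold it; fun_prop

attribute [local irreducible] ps nb it

@[fun_prop] lemma pt_stp (hL : PT L) (hx : PT x) : PT fun a => stp (L a) (x a) := by
  unfold stp; fun_prop

attribute [local irreducible] stp

lemma pt_cd (c : ℕ) : ∀ {α : Type} [Enc α] {L : α → Inp} {x : α → List ℕ}, PT L → PT x →
    PT fun a => cd c (L a) (x a) := by
  induction c with
  | zero =>
    intro α _ L x hL hx
    unfold cd
    fun_prop
  | succ c ih =>
    intro α _ L x hL hx
    have h1 := ih hL hx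
    unfold cd
    fun_prop

end

end Pool.Agent.L5helper60.MO
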