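import Pool.Agent.L5helper60.MO.Pub

/-!
# Closure properties of the class of spaces of matrices of small modality
-/

set_option autoImplicit false

namespace Pool.Agent.L5helper60.MO

open Cardinal

/-! ### Algebraic dependence -/

lemma countable_closure {S : Set ℂ} (hS : S.Countable) :
    ((Subfield.closure S : Subfield ℂ) : Set ℂ).Countable := by
  have h1 := Subfield.cardinalMk_closure_le_max S
  have h2 : #S ≤ ℵ₀ := Cardinal.mk_le_aleph0_iff.2 hS.to_subtype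
  have h3 : #(Subfield.closure S : Subfield ℂ) ≤ ℵ₀ := h1.trans (max_le h2 le_rfl)
  exact Set.countable_coe_iff.1 (Cardinal.mk_le_aleph0_iff.1 h3)

lemma alg_mono {K K' : Subfield ℂ} {S S' : Set ℂ} (hK : (K : Set ℂ) ⊆ K')
    (hS : S ⊆ (K' : Set ℂ) ∪ S') {a : ℂ} (ha : IsAlgebraic (IntermediateField.adjoin K S) a) :
    IsAlgebraic (IntermediateField.adjoin K' S') a := by
  have h1 : (IntermediateField.adjoin K S).toSubfield ≤
      (IntermediateField.adjoin K' S').toSubfield := by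
    show Subfield.closure (Set.range (algebraMap K ℂ) ∪ S) ≤
      Subfield.closure (Set.range (algebraMap K' ℂ) ∪ S')
    refine Subfield.closure_mono ?_
    rintro x (⟨y, rfl⟩ | hx)
    · exact Or.inl ⟨⟨y, hK y.2⟩, rfl⟩
    · rcases hS hx with h | h
      · exact Or.inl ⟨⟨x, h⟩, rfl⟩
      · exact Or.inr h
  obtain ⟨p, hp, hpa⟩ := ha
  let φ : IntermediateField.adjoin K S →+* IntermediateField.adjoin K' S' :=
    Subfield.inclusion h1
  refine ⟨p.map φ, (Polynomial.map_ne_zero_iff φ.injective).2 hp, ?_⟩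
  rw [Polynomial.aeval_def, Polynomial.eval₂_map]
  exact hpa

lemma alg_of_mem {K : Subfield ℂ} {S : Set ℂ} {a : ℂ} (ha : a ∈ (K : Set ℂ) ∪ S) :
    IsAlgebraic (IntermediateField.adjoin K S) a := by
  have h1 : a ∈ IntermediateField.adjoin K S := by
    rcases ha with h | h
    · exact IntermediateField.algebraMap_mem _ (⟨a, h⟩ : K)
    · exact IntermediateField.subset_adjoin K S h
  exact isAlgebraic_algebraMap (⟨a, h1⟩ : IntermediateField.adjoin K S)

lemma alg_sum {K : Subfield ℂ} {S : Set ℂ} {ι : Type} (t : Finset ι) (f : ι → ℂ)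
    (h : ∀ i ∈ t, IsAlgebraic (IntermediateField.adjoin K S) (f i)) :
    IsAlgebraic (IntermediateField.adjoin K S) (∑ i ∈ t, f i) := by
  classical
  induction t using Finset.induction_on with
  | empty =>
    rw [Finset.sum_empty]
    exact isAlgebraic_zero
  | insert a t ha ih =>
    rw [Finset.sum_insert ha]
    exact (h a (Finset.mem_insert_self a t)).add
      (ih fun i hi => h i (Finset.mem_insert_of_mem hi))

lemma alg_mul {K : Subfield ℂ} {S : Set ℂ} {a b c : Type} [Fintype b] {M : Matrix a b ℂ}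
    {N : Matrix b c ℂ} (hM : ∀ i j, IsAlgebraic (IntermediateField.adjoin K S) (M i j))
    (hN : ∀ i j, IsAlgebraic (IntermediateField.adjoin K S) (N i j)) (i : a) (j : c) :
    IsAlgebraic (IntermediateField.adjoin K S) ((M * N) i j) := by
  rw [Matrix.mul_apply]
  exact alg_sum _ _ fun l _ => (hM i l).mul (hN l j)

variable {ι ι' τ τ' : Type} [Fintype ι] [Fintype ι'] [DecidableEq ι] [DecidableEq ι']
  [Fintype τ] [Fintype τ'] [DecidableEq τ] [DecidableEq τ']

/-! ### Few parameters -/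

theorem modality_of_card {κ : Type} [Fintype κ] (A₀ : Matrix ι ι' ℂ) (A : κ → Matrix ι ι' ℂ)
    {c : ℕ} (h : Fintype.card κ ≤ c) :
    Modality (Set.range fun y : κ → ℂ => A₀ + ∑ i, y i • A i) c := by
  refine ⟨Subfield.closure (Set.range (fun p : ι × ι' => A₀ p.1 p.2) ∪
    Set.range fun p : κ × ι × ι' => A p.1 p.2.1 p.2.2), countable_closure
    ((Set.countable_range _).union (Set.countable_range _)), ?_⟩
  rintro _ ⟨y, rfl⟩
  obtain ⟨e⟩ : Nonempty (κ ↪ Fin c) := by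
    rw [Function.Embedding.nonempty_iff_card_le, Fintype.card_fin]
    exact h
  refine ⟨1, 1, Function.extend e y 0, isUnit_one, isUnit_one, fun N hN => ?_, fun i j => ?_⟩
  · rw [Matrix.one_mul, Matrix.mul_one]
    exact hN
  · rw [Matrix.one_mul, Matrix.mul_one]
    beta_reduce
    rw [Matrix.add_apply, Matrix.sum_apply]
    refine (alg_of_mem (Or.inl (Subfield.subset_closure (Or.inl ⟨(i, j), rfl⟩)))).add
      (alg_sum _ _ fun l _ => ?_)
    rw [Matrix.smul_apply, smul_eq_mul]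
    refine IsAlgebraic.mul (alg_of_mem ?_) (alg_of_mem ?_)
    · exact Or.inr ⟨e l, e.injective.extend_apply y 0 l⟩
    · exact Or.inl (Subfield.subset_closure (Or.inr ⟨(l, i, j), rfl⟩))

/-! ### Countably many orbits -/

theorem modality_of_countable {𝓜 R : Set (Matrix ι ι' ℂ)} (hR : R.Countable)
    (h : ∀ M ∈ 𝓜, ∃ (P : Matrix ι ι ℂ) (Q : Matrix ι' ι' ℂ), IsUnit P ∧ IsUnit Q ∧
      (∀ N ∈ 𝓜, P * N * Q ∈ 𝓜) ∧ P * M * Q ∈ R) : Modality 𝓜 0 := by
  refine ⟨Subfield.closure (⋃ r ∈ R, Set.range fun p : ι × ι' => r p.1 p.2), countable_closure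
    (hR.biUnion fun r _ => Set.countable_range _), fun M hM => ?_⟩
  obtain ⟨P, Q, hP, hQ, h1, h2⟩ := h M hM
  refine ⟨P, Q, Fin.elim0, hP, hQ, h1, fun i j => alg_of_mem (Or.inl ?_)⟩
  exact Subfield.subset_closure (Set.mem_biUnion h2 ⟨(i, j), rfl⟩)

/-! ### Equivalent spaces -/

lemma isUnit_reindex (e : τ ≃ ι) {P : Matrix ι ι ℂ} (hP : IsUnit P) :
    IsUnit (P.submatrix e e) := by
  obtain ⟨P', h1, h2⟩ := isUnit_iff_exists.1 hP
  refine isUnit_iff_exists.2 ⟨P'.submatrix e e, ?_, ?_⟩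
  · rw [Matrix.submatrix_mul_equiv, h1, Matrix.submatrix_one_equiv]
  · rw [Matrix.submatrix_mul_equiv, h2, Matrix.submatrix_one_equiv]

/-- **The class is closed under equivalence.** -/
theorem modality_equiv {𝓜 : Set (Matrix ι ι' ℂ)} {c : ℕ} (h : Modality 𝓜 c) (e : τ ≃ ι)
    (f : τ' ≃ ι') {P₀ : Matrix τ τ ℂ} {Q₀ : Matrix τ' τ' ℂ} (hP : IsUnit P₀) (hQ : IsUnit Q₀) :
    Modality ((fun M : Matrix ι ι' ℂ => P₀ * M.submatrix e f * Q₀) '' 𝓜) c := by
  obtain ⟨K, hK, hM⟩ := h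
  obtain ⟨P₁, hP1, hP2⟩ := isUnit_iff_exists.1 hP
  obtain ⟨Q₁, hQ1, hQ2⟩ := isUnit_iff_exists.1 hQ
  refine ⟨Subfield.closure ((K : Set ℂ) ∪ (Set.range (fun p : τ × τ => P₀ p.1 p.2) ∪
    Set.range fun p : τ' × τ' => Q₀ p.1 p.2)), countable_closure (hK.union
    ((Set.countable_range _).union (Set.countable_range _))), ?_⟩
  rintro _ ⟨M, hMM, rfl⟩
  obtain ⟨P, Q, s, uP, uQ, h1, h2⟩ := hM M hMM
  have u1 : IsUnit P₁ := isUnit_iff_exists.2 ⟨P₀, hP2, hP1⟩
  have u2 : IsUnit Q₁ := isUnit_iff_exists.2 ⟨Q₀, hQ2, hQ1⟩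
  have key : ∀ N : Matrix ι ι' ℂ, P₀ * P.submatrix e e * P₁ * (P₀ * N.submatrix e f * Q₀) *
      (Q₁ * Q.submatrix f f * Q₀) = P₀ * (P * N * Q).submatrix e f * Q₀ := by
    intro N
    have e1 : P₀ * P.submatrix e e * P₁ * (P₀ * N.submatrix e f * Q₀) *
        (Q₁ * Q.submatrix f f * Q₀) = P₀ * (P.submatrix e e * (P₁ * P₀) * N.submatrix e f *
          (Q₀ * Q₁) * Q.submatrix f f) * Q₀ := by
      simp only [Matrix.mul_assoc]
    rw [e1, hP2, hQ1, Matrix.mul_one, Matrix.mul_one, Matrix.submatrix_mul_equiv,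
      Matrix.submatrix_mul_equiv]
  refine ⟨P₀ * P.submatrix e e * P₁, Q₁ * Q.submatrix f f * Q₀, s,
    (hP.mul (isUnit_reindex e uP)).mul u1, (u2.mul (isUnit_reindex f uQ)).mul hQ, ?_,
    fun i j => ?_⟩
  · rintro _ ⟨N, hN, rfl⟩
    exact ⟨P * N * Q, h1 N hN, (key N).symm⟩
  · have hK' : (K : Set ℂ) ⊆ (Subfield.closure ((K : Set ℂ) ∪ (Set.range (fun p : τ × τ =>
        P₀ p.1 p.2) ∪ Set.range fun p : τ' × τ' => Q₀ p.1 p.2)) : Subfield ℂ) :=
      fun x hx => Subfield.subset_closure (Or.inl hx)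
    beta_reduce
    rw [key]
    refine alg_mul (alg_mul (fun a b => alg_of_mem (Or.inl (Subfield.subset_closure
      (Or.inr (Or.inl ⟨(a, b), rfl⟩))))) fun a b => ?_) (fun a b => alg_of_mem (Or.inl
      (Subfield.subset_closure (Or.inr (Or.inr ⟨(a, b), rfl⟩))))) i j
    exact alg_mono hK' Set.subset_union_right (h2 (e a) (f b))

/-! ### Direct sums -/

lemma isUnit_blocks {a b : Type} [Fintype a] [Fintype b] [DecidableEq a] [DecidableEq b]
    {M : Matrix a a ℂ} {N : Matrix b b ℂ} (hM : IsUnit M) (hN : IsUnit N) :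
    IsUnit (Matrix.fromBlocks M 0 0 N) := by
  obtain ⟨M', h1, h2⟩ := isUnit_iff_exists.1 hM
  obtain ⟨N', h3, h4⟩ := isUnit_iff_exists.1 hN
  refine isUnit_iff_exists.2 ⟨Matrix.fromBlocks M' 0 0 N', ?_, ?_⟩
  · rw [Matrix.fromBlocks_multiply]
    simp [h1, h3, Matrix.fromBlocks_one]
  · rw [Matrix.fromBlocks_multiply]
    simp [h2, h4, Matrix.fromBlocks_one]

theorem modality_sum {𝓜 : Set (Matrix ι ι' ℂ)} {𝓝 : Set (Matrix τ τ' ℂ)} {c c' : ℕ}
    (hA : Modality 𝓜 c) (hB : Modality 𝓝 c') :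
    Modality (Set.image2 (fun M N => Matrix.fromBlocks M 0 0 N) 𝓜 𝓝) (c + c') := by
  obtain ⟨K, hK, hM⟩ := hA
  obtain ⟨K', hK', hM'⟩ := hB
  refine ⟨Subfield.closure ((K : Set ℂ) ∪ K'), countable_closure (hK.union hK'), ?_⟩
  rintro _ ⟨M, hMM, M', hMM', rfl⟩
  obtain ⟨P, Q, s, uP, uQ, h1, h2⟩ := hM M hMM
  obtain ⟨P', Q', s', uP', uQ', h1', h2'⟩ := hM' M' hMM'
  have key : ∀ (N : Matrix ι ι' ℂ) (N' : Matrix τ τ' ℂ), Matrix.fromBlocks P 0 0 P' *
      Matrix.fromBlocks N 0 0 N' * Matrix.fromBlocks Q 0 0 Q' =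
      Matrix.fromBlocks (P * N * Q) 0 0 (P' * N' * Q') := by
    intro N N'
    rw [Matrix.fromBlocks_multiply, Matrix.fromBlocks_multiply]
    simp only [Matrix.mul_zero, Matrix.zero_mul, add_zero, zero_add]
  refine ⟨Matrix.fromBlocks P 0 0 P', Matrix.fromBlocks Q 0 0 Q', Fin.append s s',
    isUnit_blocks uP uP', isUnit_blocks uQ uQ', ?_, fun i j => ?_⟩
  · rintro _ ⟨N, hN, N', hN', rfl⟩
    beta_reduce
    rw [key]
    exact ⟨_, h1 N hN, _, h1' N' hN', rfl⟩
  · beta_reduce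
    rw [key]
    rcases i with i | i <;> rcases j with j | j
    · refine alg_mono (fun x hx => Subfield.subset_closure (Or.inl hx)) ?_ (h2 i j)
      rintro _ ⟨j, rfl⟩
      exact Or.inr ⟨Fin.castAdd c' j, Fin.append_left s s' j⟩
    · exact isAlgebraic_zero
    · exact isAlgebraic_zero
    · refine alg_mono (fun x hx => Subfield.subset_closure (Or.inr hx)) ?_ (h2' i j)
      rintro _ ⟨j, rfl⟩
      exact Or.inr ⟨Fin.natAdd c j, Fin.append_right s s' j⟩

end Pool.Agent.L5helper60.MO
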