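import Mathlib

/-!
# Derivations of fields of characteristic zero which do not vanish at a given transcendental element
-/

set_option autoImplicit false

namespace Pool.Agent.L5helper60.MO

open Algebra TensorProduct

variable {F T : Type} [Field F] [Field T] [Algebra F T]

open scoped IntermediateField.algebraAdjoinAdjoin in
theorem exists_der_basis [CharZero F] {ι : Type} [DecidableEq ι] {v : ι → T}
    (hv : IsTranscendenceBasis F v) (i : ι) :
    ∃ δ : Derivation F T T, ∀ j, δ (v j) = if j = i then 1 else 0 := by
  let S := adjoin F (Set.range v)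
  have hb := hv.1
  -- the derivation of the polynomial ring
  let D : Derivation F S T :=
    { toLinearMap := (MvPolynomial.aeval v).toLinearMap.comp
        ((MvPolynomial.pderiv i).toLinearMap.comp hb.aevalEquiv.symm.toLinearMap)
      map_one_eq_zero' := by simp
      leibniz' := fun a b => by
        have h : ∀ s : S, MvPolynomial.aeval v (hb.aevalEquiv.symm s) = (s : T) := fun s => by
          rw [← hb.algebraMap_aevalEquiv, AlgEquiv.apply_symm_apply]
          rfl
        simp only [LinearMap.coe_comp, Function.comp_apply, AlgEquiv.toLinearMap_apply, map_mul,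
          Derivation.coeFn_coe, Derivation.leibniz, map_add,
          smul_eq_mul, AlgHom.toLinearMap_apply, h]
        rfl }
  have : Algebra.IsAlgebraic (IntermediateField.adjoin F (Set.range v)) T := hv.isAlgebraic_field
  have : CharZero (IntermediateField.adjoin F (Set.range v)) :=
    charZero_of_injective_algebraMap (algebraMap F _).injective
  have h1 : FormallyEtale S (IntermediateField.adjoin F (Set.range v)) :=
    .of_isLocalization (nonZeroDivisors _)
  have h2 : FormallyEtale (IntermediateField.adjoin F (Set.range v)) T :=
    FormallyEtale.of_isSeparable _ T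
  have h3 : FormallyEtale S T := .comp _ (IntermediateField.adjoin F (Set.range v)) _
  let f : Ω[T⁄F] →ₗ[T] T := (LinearMap.liftBaseChange T D.liftKaehlerDifferential).comp
    (KaehlerDifferential.tensorKaehlerEquivOfFormallyEtale F S T).symm.toLinearMap
  refine ⟨f.compDer (KaehlerDifferential.D F T), fun j => ?_⟩
  have h4 : v j = algebraMap S T ⟨v j, subset_adjoin ⟨j, rfl⟩⟩ := rfl
  show f (KaehlerDifferential.D F T (v j)) = _
  rw [h4]
  simp only [f, LinearMap.coe_comp, Function.comp_apply, LinearEquiv.coe_coe,
    KaehlerDifferential.tensorKaehlerEquivOfFormallyEtale_symm_D_algebraMap]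
  rw [LinearMap.liftBaseChange_tmul, Derivation.liftKaehlerDifferential_comp_D, one_smul]
  show MvPolynomial.aeval v (MvPolynomial.pderiv i (hb.aevalEquiv.symm _)) = _
  have h5 : hb.aevalEquiv.symm ⟨v j, subset_adjoin ⟨j, rfl⟩⟩ = MvPolynomial.X j := by
    rw [AlgEquiv.symm_apply_eq]
    apply Subtype.ext
    have := hb.algebraMap_aevalEquiv (MvPolynomial.X j)
    rw [MvPolynomial.aeval_X] at this
    exact this.symm
  rw [h5, MvPolynomial.pderiv_X]
  by_cases h : j = i
  · subst h
    simp
  · rw [if_neg h, Pi.single_apply, if_neg h, map_zero]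

/-- **Partial derivatives with respect to algebraically independent elements.** -/
theorem exists_der [CharZero F] {κ : Type} [DecidableEq κ] {w : κ → T}
    (hw : AlgebraicIndependent F w) (i : κ) :
    ∃ δ : Derivation F T T, ∀ j, δ (w j) = if j = i then 1 else 0 := by
  classical
  have hr : AlgebraicIndepOn F id (Set.range w) := hw.coe_range
  obtain ⟨s, hs, hb⟩ := exists_isTranscendenceBasis_superset hr
  have hi : ∀ j, w j ∈ s := fun j => hs ⟨j, rfl⟩
  obtain ⟨δ, hδ⟩ := exists_der_basis hb ⟨w i, hi i⟩
  refine ⟨δ, fun j => ?_⟩
  have h := hδ ⟨w j, hi j⟩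
  rw [h]
  have h1 := hw.injective.eq_iff (a := j) (b := i)
  simp only [Subtype.mk.injEq, h1]

/-- derivations vanish at algebraic elements -/
theorem der_algebraic [CharZero F] (δ : Derivation F T T) {a : T} (ha : IsAlgebraic F a) :
    δ a = 0 := by
  have : CharZero T := charZero_of_injective_algebraMap (algebraMap F T).injective
  have hi := ha.isIntegral
  have h1 : (minpoly F a).Separable := (minpoly.irreducible hi).separable
  have h2 : Polynomial.aeval a (Polynomial.derivative (minpoly F a)) ≠ 0 :=
    h1.aeval_derivative_ne_zero (minpoly.aeval F a)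
  have h3 := δ.map_aeval (minpoly F a) a
  rw [minpoly.aeval, map_zero, smul_eq_mul] at h3
  exact (mul_eq_zero.1 h3.symm).resolve_left h2

end Pool.Agent.L5helper60.MO
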