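import Pool.Agent.L5helper60.MO.Rnk
import Pool.Agent.L5helper60.MO.Der

/-!
# Ideals stable under vector fields which are transversal to a coordinate subspace
-/

set_option autoImplicit false

namespace Pool.Agent.L5helper60.MO

open MvPolynomial

/-- the chain rule -/
theorem chain {k : ℕ} {S : Type} [CommRing S] [Algebra ℚ S] (δ : Derivation ℚ S S)
    (z : Fin k → S) (f : MvPolynomial (Fin k) ℚ) :
    δ (aeval z f) = ∑ i, aeval z (pderiv i f) * δ (z i) := by
  induction f using MvPolynomial.induction_on with
  | C a =>
    rw [aeval_C, Derivation.map_algebraMap]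
    simp
  | add p q hp hq =>
    rw [map_add, map_add, hp, hq, ← Finset.sum_add_distrib]
    refine Finset.sum_congr rfl fun i _ => ?_
    rw [map_add, map_add, add_mul]
  | mul_X p j hp =>
    rw [map_mul, Derivation.leibniz, hp, aeval_X, smul_eq_mul, smul_eq_mul]
    simp only [Derivation.leibniz, map_add, smul_eq_mul, map_mul, aeval_X, add_mul,
      Finset.sum_add_distrib, pderiv_X, Pi.single_apply, Finset.mul_sum]
    congr 1
    · rw [Finset.sum_eq_single j]
      · simp
      · intro i _ hi
        simp [hi.symm]
      · simp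
    · refine Finset.sum_congr rfl fun i _ => ?_
      ring

/-- the derivation of the polynomial ring which derives the coefficients -/
noncomputable def mc (δ : Derivation ℚ ℂ ℂ) :
    Derivation ℚ (Polynomial ℂ) (Polynomial ℂ) :=
  PolynomialModule.equivPolynomialSelf.compDer δ.mapCoeffs

lemma mc_coeff (δ : Derivation ℚ ℂ ℂ) (p : Polynomial ℂ) (i : ℕ) :
    (mc δ p).coeff i = δ (p.coeff i) := rfl

lemma mc_dvd (δ : Derivation ℚ ℂ ℂ) {p : Polynomial ℂ} {m : ℕ} (h : Polynomial.X ^ m ∣ p) :
    Polynomial.X ^ m ∣ mc δ p := by
  rw [Polynomial.X_pow_dvd_iff] at h ⊢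
  intro d hd
  rw [mc_coeff, h d hd, map_zero]

/-- **Ideals stable under transversal vector fields.** -/
theorem transversal {k m : ℕ}
    {D : Fin m → Derivation ℚ (MvPolynomial (Fin k) ℚ) (MvPolynomial (Fin k) ℚ)}
    {I : Ideal (MvPolynomial (Fin k) ℚ)} (hI : ∀ l, ∀ f ∈ I, D l f ∈ I) {J : Finset (Fin k)}
    {x : Fin k → ℚ} {a : Fin k → Fin m → ℚ} {α : Fin k → Fin k → ℚ}
    (hα : ∀ i', ∀ i ∉ J, α i' i = 0)
    (ha : ∀ i' i, ∑ l, a i' l * aeval x (D l (X i)) + α i' i = if i = i' then 1 else 0)
    {τ : {j // j ∈ J} → ℂ} (hτ : AlgebraicIndependent ℚ τ)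
    (h0 : ∀ f ∈ I, aeval (pt J x τ) f = 0) {f : MvPolynomial (Fin k) ℚ} (hf : f ∈ I)
    (y : Fin k → ℚ) : aeval y f = 0 := by
  classical
  -- the matrix of the vector fields
  let Bp : Matrix (Fin k) (Fin k) (MvPolynomial (Fin k) ℚ) :=
    Matrix.of fun i i' => ∑ l, C (a i' l) * D l (X i) + C (α i' i)
  have hBx : Bp.map (aeval x) = 1 := by
    ext i i'
    rw [Matrix.map_apply, Matrix.one_apply, ← ha i' i]
    simp [Bp]
  have hB0 : aeval (pt J x τ) Bp.det ≠ 0 := by
    intro h
    have h1 := special hτ h (fun j => x j)
    have h2 : pt J x (fun j => x j) = x := by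
      funext j
      rw [pt]
      split_ifs <;> rfl
    rw [h2, AlgHom.map_det] at h1
    change (Bp.map (aeval x)).det = 0 at h1
    rw [hBx, Matrix.det_one] at h1
    exact one_ne_zero h1
  -- the identity of the vector fields
  have hid : ∀ g : MvPolynomial (Fin k) ℚ, ∀ i', ∑ i, pderiv i g * Bp i i' =
      ∑ l, C (a i' l) * D l g + ∑ i, C (α i' i) * pderiv i g := by
    intro g i'
    have h1 : ∀ l, D l g = ∑ i, pderiv i g * D l (X i) := by
      intro l
      have := chain (D l) X g
      rw [aeval_X_left_apply] at this
      rw [this]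
      refine Finset.sum_congr rfl fun i _ => ?_
      rw [aeval_X_left_apply]
    simp only [h1, Bp, Matrix.of_apply, mul_add, Finset.sum_add_distrib, Finset.mul_sum]
    congr 1
    · rw [Finset.sum_comm]
      refine Finset.sum_congr rfl fun l _ => Finset.sum_congr rfl fun i _ => ?_
      ring
    · refine Finset.sum_congr rfl fun i _ => ?_
      ring
  -- derivations along the generic coordinates
  choose δ hδ using exists_der (F := ℚ) (T := ℂ) hτ
  -- divisibility, for every direction
  have hv : ∀ v : Fin k → ℚ, ∀ m : ℕ, ∀ g ∈ I, (Polynomial.X : Polynomial ℂ) ^ m ∣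
      aeval (fun i => Polynomial.C (pt J x τ i) + Polynomial.X * Polynomial.C (v i : ℂ)) g := by
    intro v m
    obtain ⟨z, hz⟩ : ∃ z : Fin k → Polynomial ℂ, z = fun i =>
      Polynomial.C (pt J x τ i) + Polynomial.X * Polynomial.C (v i : ℂ) := ⟨_, rfl⟩
    rw [← hz]
    have hz0 : ∀ g : MvPolynomial (Fin k) ℚ, (aeval z g).coeff 0 = aeval (pt J x τ) g := by
      intro g
      have h1 : ∀ p : Polynomial ℂ, p.coeff 0 = Polynomial.aeval (0 : ℂ) p := by
        intro p
        rw [Polynomial.coeff_zero_eq_aeval_zero]
      have h2 : ((Polynomial.aeval (0 : ℂ)).restrictScalars ℚ).comp (aeval z) =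
          (aeval (pt J x τ) : MvPolynomial (Fin k) ℚ →ₐ[ℚ] ℂ) := by
        ext i
        simp [hz]
      rw [h1, ← h2]
      rfl
    induction m with
    | zero =>
      intro g _
      rw [pow_zero]
      exact one_dvd _
    | succ m ih =>
      intro g hg
      -- derivatives in the directions of `J`
      have hJ : ∀ i ∈ J, (Polynomial.X : Polynomial ℂ) ^ m ∣ aeval z (pderiv i g) := by
        intro i hi
        have h1 := mc_dvd (δ ⟨i, hi⟩) (ih g hg)
        rw [chain] at h1
        have h2 : ∀ j, mc (δ ⟨i, hi⟩) (z j) = if j = i then 1 else 0 := by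
          intro j
          have h3 : mc (δ ⟨i, hi⟩) (z j) = Polynomial.C (δ ⟨i, hi⟩ (pt J x τ j)) := by
            ext d
            rw [mc_coeff, hz]
            rw [Polynomial.coeff_add, Polynomial.coeff_C, Polynomial.coeff_mul_C,
              Polynomial.coeff_X, map_add, Polynomial.coeff_C]
            have h4 : ∀ q : ℚ, δ ⟨i, hi⟩ (q : ℂ) = 0 := fun q => by
              have := (δ ⟨i, hi⟩).map_algebraMap q
              simpa using this
            rcases d with _ | d
            · simp
            · rcases d with _ | d
              · simp [h4]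
              · simp
          rw [h3, pt]
          split_ifs with h5 h6 h6
          · subst h6
            rw [hδ, if_pos rfl, map_one]
          · rw [hδ, if_neg, map_zero]
            exact fun h => h6 (congrArg Subtype.val h)
          · exact absurd (h6 ▸ hi) h5
          · rw [Derivation.map_algebraMap, map_zero]
        simpa [h2] using h1
      -- derivatives in all directions
      have hall : ∀ i, (Polynomial.X : Polynomial ℂ) ^ m ∣ aeval z (pderiv i g) := by
        obtain ⟨G, hG⟩ : ∃ G : Fin k → Polynomial ℂ, G = fun i => aeval z (pderiv i g) :=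
          ⟨_, rfl⟩
        have h1 : ∀ i', (Polynomial.X : Polynomial ℂ) ^ m ∣
            Matrix.vecMul G (Bp.map (aeval z)) i' := by
          intro i'
          have h2 := congrArg (aeval z) (hid g i')
          rw [map_sum, map_add, map_sum, map_sum] at h2
          have h3 : Matrix.vecMul G (Bp.map (aeval z)) i' =
              ∑ i, aeval z (pderiv i g * Bp i i') := by
            rw [Matrix.vecMul, dotProduct, hG]
            refine Finset.sum_congr rfl fun i _ => ?_
            rw [map_mul]
            rfl
          rw [h3, h2]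
          refine dvd_add (Finset.dvd_sum fun l _ => ?_) (Finset.dvd_sum fun i _ => ?_)
          · rw [map_mul]
            exact Dvd.dvd.mul_left (ih _ (hI l g hg)) _
          · rw [map_mul]
            by_cases hi : i ∈ J
            · exact Dvd.dvd.mul_left (hJ i hi) _
            · rw [hα i' i hi]
              simp
        have h2 : ∀ i, (Polynomial.X : Polynomial ℂ) ^ m ∣ G i * (Bp.map (aeval z)).det := by
          intro i
          have h3 : Matrix.vecMul (Matrix.vecMul G (Bp.map (aeval z)))
              (Bp.map (aeval z)).adjugate i = G i * (Bp.map (aeval z)).det := by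
            rw [Matrix.vecMul_vecMul, Matrix.mul_adjugate, Matrix.vecMul_smul, Matrix.vecMul_one]
            simp [mul_comm]
          rw [← h3, Matrix.vecMul, dotProduct]
          exact Finset.dvd_sum fun i' _ => Dvd.dvd.mul_right (h1 i') _
        intro i
        have h3 := Polynomial.prime_X.pow_dvd_of_dvd_mul_right m (b := (Bp.map (aeval z)).det)
          (a := G i) ?_ (h2 i)
        · rw [hG] at h3
          exact h3
        · rw [Polynomial.X_dvd_iff]
          have h4 : (Bp.map (aeval z)).det = aeval z Bp.det := by
            rw [AlgHom.map_det]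
            rfl
          rw [h4, hz0]
          exact hB0
      -- the derivative along the curve
      have hder : (Polynomial.X : Polynomial ℂ) ^ m ∣ Polynomial.derivative (aeval z g) := by
        have h1 := chain (Polynomial.derivative'.restrictScalars ℚ) z g
        change Polynomial.derivative (aeval z g) = _ at h1
        rw [h1]
        exact Finset.dvd_sum fun i _ => Dvd.dvd.mul_right (hall i) _
      rw [Polynomial.X_pow_dvd_iff] at hder ⊢
      intro d hd
      rcases d with _ | d
      · rw [hz0]
        exact h0 g hg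
      · have h1 := hder d (by omega)
        rw [Polynomial.coeff_derivative, mul_eq_zero] at h1
        rcases h1 with h1 | h1
        · exact h1
        · exfalso
          have : ((d + 1 : ℕ) : ℂ) ≠ 0 := Nat.cast_ne_zero.2 (Nat.succ_ne_zero d)
          exact this (by push_cast; exact h1)
  -- conclusion
  have h1 : ∀ v : Fin k → ℚ, aeval (fun i => pt J x τ i + (v i : ℂ)) f = 0 := by
    intro v
    have h2 : aeval (fun i => Polynomial.C (pt J x τ i) + Polynomial.X * Polynomial.C (v i : ℂ)) f
        = 0 := by
      ext d
      have := hv v (d + 1) f hf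
      rw [Polynomial.X_pow_dvd_iff] at this
      rw [this d (by omega), Polynomial.coeff_zero]
    have h3 : ((Polynomial.aeval (1 : ℂ)).restrictScalars ℚ).comp
        (aeval fun i => Polynomial.C (pt J x τ i) + Polynomial.X * Polynomial.C (v i : ℂ)) =
        (aeval (fun i => pt J x τ i + (v i : ℂ)) : MvPolynomial (Fin k) ℚ →ₐ[ℚ] ℂ) := by
      ext i
      simp
    rw [← h3, AlgHom.comp_apply, h2, map_zero]
  have h2 : aeval (pt J x τ) (aeval (fun i => (X i : MvPolynomial (Fin k) ℚ) + C (y i - x i)) f)
      = 0 := by
    rw [← AlgHom.comp_apply]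
    have h3 : (aeval (pt J x τ)).comp
        (aeval (fun i => (X i : MvPolynomial (Fin k) ℚ) + C (y i - x i))) =
        (aeval (fun i => pt J x τ i + ((y i - x i : ℚ) : ℂ)) : MvPolynomial (Fin k) ℚ →ₐ[ℚ] ℂ) := by
      ext i
      simp
    rw [h3, h1 fun i => y i - x i]
  have h3 := special hτ h2 (fun j => x j)
  have h4 : pt J x (fun j => x j) = x := by
    funext j
    rw [pt]
    split_ifs <;> rfl
  rw [h4, ← AlgHom.comp_apply] at h3
  have h5 : (aeval x).comp
      (aeval (fun i => (X i : MvPolynomial (Fin k) ℚ) + C (y i - x i))) =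
      (aeval y : MvPolynomial (Fin k) ℚ →ₐ[ℚ] ℚ) := by
    ext i
    simp
  rwa [h5] at h3

end Pool.Agent.L5helper60.MO
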