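import Pool.Agent.L5helper60.MO.Tan
import Pool.Agent.L5helper60.MO.Trv

/-!
# Local optima of the dimension of the orbit
-/

set_option autoImplicit false

namespace Pool.Agent.L5helper60.MO

open Module MvPolynomial

variable {n k : ℕ}

/-! ### The matrix of the vector fields -/

/-- the polynomial matrix of the vector fields -/
noncomputable def Rp (A : Fin (k + 1) → Matrix (Fin n) (Fin n) ℚ) :
    Matrix (Fin k) (Fin (finrank ℚ (Sol A))) (MvPolynomial (Fin k) ℚ) :=
  Matrix.of fun i l => C (Cm (sb A l : Un n k → ℚ) i 0) +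
    ∑ j : Fin k, C (Cm (sb A l : Un n k → ℚ) i j.succ) * X j

variable {S : Type} [CommRing S] [Algebra ℚ S]

lemma Rp_map (A : Fin (k + 1) → Matrix (Fin n) (Fin n) ℚ) (z : Fin k → S) (i : Fin k)
    (l : Fin (finrank ℚ (Sol A))) : (Rp A).map (aeval z) i l =
      dir z (fun u => algebraMap ℚ S ((sb A l : Un n k → ℚ) u)) i := by
  simp [Rp, dir, Cm]

lemma Rp_mulVec (A : Fin (k + 1) → Matrix (Fin n) (Fin n) ℚ) (z : Fin k → S)
    (a : Fin (finrank ℚ (Sol A)) → S) : ((Rp A).map (aeval z)).mulVec a =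
      dir z (fun u => ∑ l, a l * algebraMap ℚ S ((sb A l : Un n k → ℚ) u)) := by
  have h1 : (fun u => ∑ l, a l * algebraMap ℚ S ((sb A l : Un n k → ℚ) u)) =
      ∑ l, a l • fun u => algebraMap ℚ S ((sb A l : Un n k → ℚ) u) := by
    funext u
    simp
  rw [h1, map_sum]
  funext i
  rw [Finset.sum_apply, Matrix.mulVec, dotProduct]
  refine Finset.sum_congr rfl fun l _ => ?_
  rw [Rp_map, map_smul, Pi.smul_apply, smul_eq_mul, mul_comm]

lemma Rp_degree (A : Fin (k + 1) → Matrix (Fin n) (Fin n) ℚ) (s : Fin k)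
    (t : Fin (finrank ℚ (Sol A))) (i : Fin k) : (Rp A s t).degreeOf i ≤ 1 := by
  show degreeOf i (C (Cm (sb A t : Un n k → ℚ) s 0) +
    ∑ j : Fin k, C (Cm (sb A t : Un n k → ℚ) s j.succ) * X j) ≤ 1
  refine (degreeOf_add_le _ _ _).trans (max_le (by rw [degreeOf_C]; omega) ?_)
  refine (degreeOf_sum_le _ _ _).trans (Finset.sup_le fun j _ => ?_)
  refine (degreeOf_C_mul_le _ _ _).trans ?_
  by_cases h : i = j
  · subst h
    rw [degreeOf_X_self]
  · rw [degreeOf_X_of_ne h]
    omega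

/-- the rational infinitesimal symmetries give the vectors at a rational point -/
lemma range_Rp (A : Fin (k + 1) → Matrix (Fin n) (Fin n) ℚ) (x : Fin k → ℚ) :
    LinearMap.range ((Rp A).map (aeval x)).mulVecLin = (Sol A).map (dir x) := by
  ext v
  rw [LinearMap.mem_range, Submodule.mem_map]
  constructor
  · rintro ⟨a, rfl⟩
    refine ⟨∑ l, a l • (sb A l : Un n k → ℚ), (Sol A).sum_mem fun l _ =>
      (Sol A).smul_mem _ (sb A l).2, ?_⟩
    rw [Matrix.mulVecLin_apply, Rp_mulVec]
    congr 1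
    funext u
    simp
  · rintro ⟨w, hw, rfl⟩
    refine ⟨(sb A).repr ⟨w, hw⟩, ?_⟩
    rw [Matrix.mulVecLin_apply, Rp_mulVec]
    congr 1
    funext u
    have h1 := congrArg (fun v : Sol A => (v : Un n k → ℚ) u) ((sb A).sum_repr ⟨w, hw⟩)
    simp only [Submodule.coe_sum, Submodule.coe_smul, Finset.sum_apply, Pi.smul_apply,
      smul_eq_mul] at h1
    simpa using h1

/-! ### The polynomial matrix -/

lemma Mx_map (A : Fin (k + 1) → Matrix (Fin n) (Fin n) ℚ) (z : Fin k → S) :
    (Mx A (X : Fin k → MvPolynomial (Fin k) ℚ)).map (aeval z) = Mx A z := by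
  ext s t
  simp [Mx, Matrix.sum_apply]

lemma Mx_degree (A : Fin (k + 1) → Matrix (Fin n) (Fin n) ℚ) (s t : Fin n) (i : Fin k) :
    (Mx A (X : Fin k → MvPolynomial (Fin k) ℚ) s t).degreeOf i ≤ 1 := by
  have h1 : Mx A (X : Fin k → MvPolynomial (Fin k) ℚ) s t =
      C (A 0 s t) + ∑ j : Fin k, C (A j.succ s t) * X j := by
    simp [Mx, Matrix.sum_apply, mul_comm]
  rw [h1]
  refine (degreeOf_add_le _ _ _).trans (max_le (by rw [degreeOf_C]; omega) ?_)
  refine (degreeOf_sum_le _ _ _).trans (Finset.sup_le fun j _ => ?_)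
  refine (degreeOf_C_mul_le _ _ _).trans ?_
  by_cases h : i = j
  · subst h
    rw [degreeOf_X_self]
  · rw [degreeOf_X_of_ne h]
    omega

lemma eqn_map (A : Fin (k + 1) → Matrix (Fin n) (Fin n) ℚ) {w : Un n k → ℚ} (hw : w ∈ Sol A) :
    eqn A (fun u => algebraMap ℚ S (w u)) = 0 := by
  funext l
  ext s t
  have h1 : eqn A w l s t = 0 := by
    rw [Sol, LinearMap.mem_ker] at hw
    rw [hw]
    rfl
  rw [eqn_apply] at h1 ⊢
  have h2 := congrArg (algebraMap ℚ S) h1
  simpa using h2

/-- the vector fields -/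
noncomputable def VF (A : Fin (k + 1) → Matrix (Fin n) (Fin n) ℚ)
    (l : Fin (finrank ℚ (Sol A))) :
    Derivation ℚ (MvPolynomial (Fin k) ℚ) (MvPolynomial (Fin k) ℚ) :=
  mkDerivation ℚ fun i => Rp A i l

lemma VF_X (A : Fin (k + 1) → Matrix (Fin n) (Fin n) ℚ) (l : Fin (finrank ℚ (Sol A)))
    (i : Fin k) : VF A l (X i) = Rp A i l := by
  rw [VF, mkDerivation_X]

/-- **The ideals of minors are stable.** -/
lemma VF_mins (A : Fin (k + 1) → Matrix (Fin n) (Fin n) ℚ) (ρ : ℕ)
    (l : Fin (finrank ℚ (Sol A))) (f : MvPolynomial (Fin k) ℚ)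
    (hf : f ∈ mins ρ (Mx A (X : Fin k → MvPolynomial (Fin k) ℚ))) :
    VF A l f ∈ mins ρ (Mx A (X : Fin k → MvPolynomial (Fin k) ℚ)) := by
  refine der_mins (VF A l)
    (P := Pm fun u => algebraMap ℚ (MvPolynomial (Fin k) ℚ) ((sb A l : Un n k → ℚ) u))
    (Q := Qm fun u => algebraMap ℚ (MvPolynomial (Fin k) ℚ) ((sb A l : Un n k → ℚ) u)) ?_ hf
  rw [eqn_Mx A (eqn_map A (sb A l).2)]
  refine Matrix.ext fun s t => ?_
  have h1 : ∀ i, dir (X : Fin k → MvPolynomial (Fin k) ℚ)
      (fun u => algebraMap ℚ (MvPolynomial (Fin k) ℚ) ((sb A l : Un n k → ℚ) u)) i = Rp A i l := by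
    intro i
    rfl
  simp only [h1]
  simp only [Mx, Matrix.map_apply, Matrix.add_apply, Matrix.sum_apply, Matrix.smul_apply,
    smul_eq_mul, map_add, map_sum, Derivation.map_algebraMap, Derivation.leibniz, VF_X, mul_zero,
    zero_add]
  refine Finset.sum_congr rfl fun i _ => ?_
  rw [mul_comm]

/-! ### Coordinates which are independent of the tangent space -/

/-- No nonzero tangent vector at `x` is supported in `J`. -/
def Ind (A : Fin (k + 1) → Matrix (Fin n) (Fin n) ℚ) (x : Fin k → ℚ) (J : Finset (Fin k)) :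
    Prop :=
  ∀ v ∈ (Sol A).map (dir x), (∀ i ∉ J, v i = 0) → v = 0

/-- the coordinates outside of `J` -/
def off {K : Type} [Field K] (J : Finset (Fin k)) : (Fin k → K) →ₗ[K] ({i // i ∉ J} → K) :=
  LinearMap.funLeft K K Subtype.val

lemma fr_map {K V W : Type} [Field K] [AddCommGroup V] [Module K V] [FiniteDimensional K V]
    [AddCommGroup W] [Module K W] (N : Submodule K V) (p : V →ₗ[K] W) :
    finrank K N = finrank K (N.map p) + finrank K (N ⊓ LinearMap.ker p : Submodule K V) := by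
  have := (p ∘ₗ N.subtype).finrank_range_add_finrank_ker
  rw [LinearMap.range_comp, Submodule.range_subtype, LinearMap.ker_comp,
    ← Submodule.finrank_map_subtype_eq N, Submodule.map_comap_subtype] at this
  exact this.symm

lemma rank_off {K : Type} [Field K] {m : ℕ} (J : Finset (Fin k)) (N : Matrix (Fin k) (Fin m) K) :
    (N.submatrix (Subtype.val : {i // i ∉ J} → Fin k) id).rank =
      finrank K ((LinearMap.range N.mulVecLin).map (off J)) := by
  rw [Matrix.rank, ← LinearMap.range_comp]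
  rfl

/-- **At most `c` coordinates are independent of the tangent space at a local optimum.** -/
theorem ind_card {A : Fin (k + 1) → Matrix (Fin n) (Fin n) ℚ} {c D : ℕ} (hM : Mod A c)
    (hD : k + 1 ≤ D) {x : Fin k → ℚ}
    (hx : ∀ J : Finset (Fin k), J.card ≤ c + 1 → ∀ m : {j // j ∈ J} → ℕ, (∀ j, m j ≤ D) →
      finrank ℚ ((Sol A).map (dir (pt J x fun j => (m j : ℚ)))) ≤
        finrank ℚ ((Sol A).map (dir x)))
    {J : Finset (Fin k)} (hJ : Ind A x J) : J.card ≤ c := by
  by_contra hc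
  obtain ⟨J', hJJ, hJ'⟩ := Finset.exists_subset_card_eq (show c + 1 ≤ J.card by omega)
  have hI : Ind A x J' := fun v hv h => hJ v hv fun i hi => h i fun hi' => hi (hJJ hi')
  obtain ⟨K, hK, hM⟩ := hM
  obtain ⟨l, hl⟩ := exists_generic K hK {j // j ∈ J'}
  have hlQ : AlgebraicIndependent ℚ l :=
    hl.restrictScalars (algebraMap ℚ K).injective
  obtain ⟨w, hw1, hw2, hw3⟩ := tangent A hJ' hl x (hM _)
  obtain ⟨a, ha⟩ := base_change A w hw1
  -- the rank at `x`
  have h1 : ((Rp A).map (aeval x)).rank = finrank ℚ ((Sol A).map (dir x)) := by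
    rw [Matrix.rank, range_Rp]
  have h2 : (((Rp A).submatrix (Subtype.val : {i // i ∉ J'} → Fin k) id).map (aeval x)).rank =
      finrank ℚ ((Sol A).map (dir x)) := by
    rw [← Matrix.submatrix_map, rank_off, range_Rp]
    have h3 := fr_map ((Sol A).map (dir x)) (off (K := ℚ) J')
    have h4 : (Sol A).map (dir x) ⊓ LinearMap.ker (off (K := ℚ) J') = ⊥ := by
      rw [eq_bot_iff]
      rintro v ⟨hv1, hv2⟩
      refine hI v hv1 fun i hi => ?_
      exact congrFun (LinearMap.mem_ker.1 hv2) ⟨i, hi⟩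
    rw [h4, finrank_bot] at h3
    omega
  -- the rank at the generic point
  have h3 := rank_special (x := x) hlQ ((Rp A).submatrix (Subtype.val : {i // i ∉ J'} → Fin k) id)
  have h4 : ((Rp A).map (aeval (pt J' x l))).rank ≤ finrank ℚ ((Sol A).map (dir x)) := by
    refine rank_grid (D := D) (Rp_degree A) ?_ (fun m hm => ?_) l
    · have := Submodule.finrank_le ((Sol A).map (dir x))
      rw [Module.finrank_fin_fun] at this
      omega
    · rw [Matrix.rank, range_Rp]
      exact hx J' hJ'.le m hm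
  rw [h2, ← Matrix.submatrix_map, rank_off] at h3
  have h5 := fr_map (LinearMap.range ((Rp A).map (aeval (pt J' x l))).mulVecLin)
    (off (K := ℂ) J')
  rw [Matrix.rank] at h4
  have h6 : finrank ℂ (LinearMap.range ((Rp A).map (aeval (pt J' x l))).mulVecLin ⊓
      LinearMap.ker (off (K := ℂ) J') : Submodule ℂ (Fin k → ℂ)) = 0 := by omega
  rw [Submodule.finrank_eq_zero] at h6
  apply hw3
  have h7 : dir (pt J' x l) w ∈ (LinearMap.range ((Rp A).map (aeval (pt J' x l))).mulVecLin ⊓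
      LinearMap.ker (off (K := ℂ) J') : Submodule ℂ (Fin k → ℂ)) := by
    refine ⟨⟨a, ?_⟩, ?_⟩
    · rw [Matrix.mulVecLin_apply, Rp_mulVec]
      congr 1
      funext u
      rw [ha]
      rfl
    · rw [SetLike.mem_coe, LinearMap.mem_ker]
      funext i
      exact hw2 i.1 i.2
  rw [h6] at h7
  exact h7

lemma exists_maximal_ind (A : Fin (k + 1) → Matrix (Fin n) (Fin n) ℚ) (x : Fin k → ℚ) :
    ∃ J : Finset (Fin k), Ind A x J ∧ ∀ i, i ∉ J → ¬ Ind A x (insert i J) := by
  classical
  obtain ⟨J, hJ, hmax⟩ := Finset.exists_max_image (Finset.univ.filter fun J => Ind A x J)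
    Finset.card ⟨∅, by
      rw [Finset.mem_filter]
      exact ⟨Finset.mem_univ _, fun v _ h => funext fun i => h i (Finset.notMem_empty i)⟩⟩
  refine ⟨J, (Finset.mem_filter.1 hJ).2, fun i hi h => ?_⟩
  have h1 := hmax _ (Finset.mem_filter.2 ⟨Finset.mem_univ _, h⟩)
  rw [Finset.card_insert_of_notMem hi] at h1
  omega

lemma ind_vector {A : Fin (k + 1) → Matrix (Fin n) (Fin n) ℚ} {x : Fin k → ℚ}
    {J : Finset (Fin k)} (hJ : Ind A x J) {i' : Fin k} (h1 : ¬ Ind A x (insert i' J)) :
    ∃ v ∈ (Sol A).map (dir x), (∀ i ∉ insert i' J, v i = 0) ∧ v i' ≠ 0 := by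
  rw [Ind] at h1
  push Not at h1
  obtain ⟨v, hv, hv0, hvne⟩ := h1
  refine ⟨v, hv, hv0, fun h2 => hvne ?_⟩
  refine hJ v hv fun i h => ?_
  by_cases h3 : i = i'
  · rw [h3, h2]
  · exact hv0 i (by simp [h3, h])

/-- The number of coordinates which are independent of the tangent space. -/
lemma card_of_codim {A : Fin (k + 1) → Matrix (Fin n) (Fin n) ℚ} {x : Fin k → ℚ} {c : ℕ}
    (h : k ≤ finrank ℚ ((Sol A).map (dir x)) + c) {J : Finset (Fin k)} (hJ : Ind A x J) :
    J.card ≤ c := by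
  have h3 := fr_map ((Sol A).map (dir x)) (off (K := ℚ) J)
  have h4 : (Sol A).map (dir x) ⊓ LinearMap.ker (off (K := ℚ) J) = ⊥ := by
    rw [eq_bot_iff]
    rintro v ⟨hv1, hv2⟩
    refine hJ v hv1 fun i hi => ?_
    exact congrFun (LinearMap.mem_ker.1 hv2) ⟨i, hi⟩
  rw [h4, finrank_bot] at h3
  have h5 := Submodule.finrank_le (((Sol A).map (dir x)).map (off (K := ℚ) J))
  rw [Module.finrank_fintype_fun_eq_card] at h5
  have h6 : Fintype.card {i // i ∉ J} + J.card = k := by
    rw [Fintype.card_subtype_compl, Fintype.card_fin, Fintype.card_coe]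
    have := J.card_le_univ
    rw [Fintype.card_fin] at this
    omega
  omega

/-- The codimension of the tangent space. -/
lemma codim_of_card {A : Fin (k + 1) → Matrix (Fin n) (Fin n) ℚ} {x : Fin k → ℚ} {c : ℕ}
    (h : ∀ J, Ind A x J → J.card ≤ c) : k ≤ finrank ℚ ((Sol A).map (dir x)) + c := by
  classical
  obtain ⟨J, hJ, hmax⟩ := exists_maximal_ind A x
  have h1 : ((Sol A).map (dir x)).map (off (K := ℚ) J) = ⊤ := by
    rw [eq_top_iff, ← (Pi.basisFun ℚ {i // i ∉ J}).span_eq, Submodule.span_le]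
    rintro _ ⟨i, rfl⟩
    obtain ⟨v, hv, hv0, hvi⟩ := ind_vector hJ (hmax i.1 i.2)
    refine ⟨(v i.1)⁻¹ • v, Submodule.smul_mem _ _ hv, ?_⟩
    rw [Pi.basisFun_apply]
    funext j
    show (v i.1)⁻¹ * v j.1 = _
    by_cases h2 : j = i
    · subst h2
      rw [Pi.single_eq_same, inv_mul_cancel₀ hvi]
    · rw [Pi.single_eq_of_ne h2, hv0 j.1, mul_zero]
      rw [Finset.mem_insert]
      rintro (h3 | h3)
      · exact h2 (Subtype.ext h3)
      · exact j.2 h3
  have h2 := Submodule.finrank_map_le (off (K := ℚ) J) ((Sol A).map (dir x))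
  rw [h1, finrank_top, Module.finrank_fintype_fun_eq_card] at h2
  have h6 : Fintype.card {i // i ∉ J} + J.card = k := by
    rw [Fintype.card_subtype_compl, Fintype.card_fin, Fintype.card_coe]
    have := J.card_le_univ
    rw [Fintype.card_fin] at this
    omega
  have h7 := h J hJ
  omega

/-- local optima of the potential are local optima of the dimension of the orbit -/
lemma opt_dim {A : Fin (k + 1) → Matrix (Fin n) (Fin n) ℚ} {c D : ℕ} {x : Fin k → ℚ}
    (hx : ∀ J : Finset (Fin k), J.card ≤ c + 1 → ∀ m : {j // j ∈ J} → ℕ, (∀ j, m j ≤ D) →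
      (n + 1) * finrank ℚ ((Sol A).map (dir (pt J x fun j => (m j : ℚ)))) +
        (Mx A (pt J x fun j => (m j : ℚ))).rank ≤
      (n + 1) * finrank ℚ ((Sol A).map (dir x)) + (Mx A x).rank) :
    ∀ J : Finset (Fin k), J.card ≤ c + 1 → ∀ m : {j // j ∈ J} → ℕ, (∀ j, m j ≤ D) →
      finrank ℚ ((Sol A).map (dir (pt J x fun j => (m j : ℚ)))) ≤
        finrank ℚ ((Sol A).map (dir x)) := by
  have hn' : (Mx A x).rank ≤ n := by
    have := Matrix.rank_le_card_height (Mx A x)
    rwa [Fintype.card_fin] at this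
  intro J hJ m hm
  have h1 := hx J hJ m hm
  by_contra h2
  rw [not_le] at h2
  have h3 := Nat.mul_le_mul_left (n + 1) (Nat.succ_le_of_lt h2)
  rw [Nat.mul_succ] at h3
  omega

/-- **Local optima of the dimension of the orbit.** If the tangent space at a local optimum has
codimension at most `c`, then the rank is the largest rank. -/
theorem opt {A : Fin (k + 1) → Matrix (Fin n) (Fin n) ℚ} {c D : ℕ}
    (hD : n + k + 1 ≤ D) {x : Fin k → ℚ}
    (hcd : k ≤ finrank ℚ ((Sol A).map (dir x)) + c)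
    (hx : ∀ J : Finset (Fin k), J.card ≤ c + 1 → ∀ m : {j // j ∈ J} → ℕ, (∀ j, m j ≤ D) →
      (n + 1) * finrank ℚ ((Sol A).map (dir (pt J x fun j => (m j : ℚ)))) +
        (Mx A (pt J x fun j => (m j : ℚ))).rank ≤
      (n + 1) * finrank ℚ ((Sol A).map (dir x)) + (Mx A x).rank)
    (y : Fin k → ℚ) : (Mx A y).rank ≤ (Mx A x).rank := by
  classical
  have hn' : (Mx A x).rank ≤ n := by
    have := Matrix.rank_le_card_height (Mx A x)
    rwa [Fintype.card_fin] at this
  have hk' : finrank ℚ ((Sol A).map (dir x)) ≤ k := by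
    have := Submodule.finrank_le ((Sol A).map (dir x))
    rwa [Module.finrank_fin_fun] at this
  obtain ⟨J, hJ, hmax⟩ := exists_maximal_ind A x
  have hc := card_of_codim hcd hJ
  generalize hr : (Mx A x).rank = r at *
  obtain ⟨τ, hτ⟩ := exists_generic (algebraMap ℚ ℂ).fieldRange (by
    have : ((algebraMap ℚ ℂ).fieldRange : Set ℂ) = Set.range (algebraMap ℚ ℂ) := by
      ext; simp
    rw [this]
    exact Set.countable_range _) {j // j ∈ J}
  have hτQ : AlgebraicIndependent ℚ τ :=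
    hτ.restrictScalars (algebraMap ℚ (algebraMap ℚ ℂ).fieldRange).injective
  -- the unit vectors
  have hunit : ∀ i' : Fin k, ∃ (a : Fin (finrank ℚ (Sol A)) → ℚ) (α : Fin k → ℚ),
      (∀ i ∉ J, α i = 0) ∧
      ∀ i, ((Rp A).map (aeval x)).mulVec a i + α i = if i = i' then 1 else 0 := by
    intro i'
    by_cases hi : i' ∈ J
    · refine ⟨0, Pi.single i' 1, fun i h => ?_, fun i => ?_⟩
      · rw [Pi.single_eq_of_ne]
        rintro rfl
        exact h hi
      · rw [Matrix.mulVec_zero, Pi.zero_apply, zero_add, Pi.single_apply]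
    · obtain ⟨v, hv, hv0, hvi⟩ := ind_vector hJ (hmax i' hi)
      rw [← range_Rp] at hv
      obtain ⟨a, ha⟩ := hv
      rw [Matrix.mulVecLin_apply] at ha
      refine ⟨(v i')⁻¹ • a, fun i => if i ∈ J then - ((v i')⁻¹ * v i) else 0, fun i h => if_neg h,
        fun i => ?_⟩
      rw [Matrix.mulVec_smul, ha, Pi.smul_apply, smul_eq_mul]
      beta_reduce
      by_cases h3 : i = i'
      · subst h3
        rw [if_neg hi, if_pos rfl, inv_mul_cancel₀ hvi, add_zero]
      · rw [if_neg h3]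
        by_cases h4 : i ∈ J
        · rw [if_pos h4]
          ring
        · rw [if_neg h4, hv0 i (by simp [h3, h4])]
          ring
  choose a α hα ha using hunit
  -- the minors vanish at the generic point
  have hgen : (Mx A (pt J x τ)).rank ≤ r := by
    rw [← Mx_map]
    have h1 : ((Rp A).map (aeval x)).rank = finrank ℚ ((Sol A).map (dir x)) := by
      rw [Matrix.rank, range_Rp]
    refine rank_grid₂ (D := D) (N' := Rp A) (ρ' := finrank ℚ ((Sol A).map (dir x)))
      (Mx_degree A) (Rp_degree A) (by omega) h1.ge (fun m hm h2 => ?_) hτQ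
    rw [Mx_map]
    rw [Matrix.rank, range_Rp] at h2
    have h3 := hx J (by omega) m hm
    have h4 := Nat.mul_le_mul_left (n + 1) h2
    omega
  have hzero : ∀ f ∈ mins (r + 1) (Mx A (X : Fin k → MvPolynomial (Fin k) ℚ)),
      aeval (pt J x τ) f = 0 := by
    intro f hf
    refine Submodule.span_induction (p := fun f _ => aeval (pt J x τ) f = 0) ?_ ?_ ?_ ?_ hf
    · rintro _ ⟨g, h, rfl⟩
      rw [← minor_eq, Mx_map]
      by_contra h2
      have h3 := (le_rank_iff _ _).2 ⟨g, h, h2⟩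
      omega
    · rw [map_zero]
    · intro f g _ _ hf hg
      rw [map_add, hf, hg, add_zero]
    · intro g f _ hf
      rw [smul_eq_mul, map_mul, hf, mul_zero]
  -- conclusion
  by_contra hy
  rw [not_le, ← Nat.succ_le_iff, le_rank_iff] at hy
  obtain ⟨g, h, hgh⟩ := hy
  apply hgh
  rw [← Mx_map, minor_eq]
  refine transversal (D := VF A) (a := a) (VF_mins A (r + 1)) hα (fun i' i => ?_) hτQ hzero
    (Ideal.subset_span ⟨g, h, rfl⟩) y
  rw [← ha i' i, Matrix.mulVec, dotProduct]
  congr 1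
  refine Finset.sum_congr rfl fun l _ => ?_
  rw [VF_X, mul_comm]
  rfl

/-- The tangent space at a local optimum has codimension at most the modality. -/
theorem codim_of_mod {A : Fin (k + 1) → Matrix (Fin n) (Fin n) ℚ} {c D : ℕ} (hM : Mod A c)
    (hD : n + k + 1 ≤ D) {x : Fin k → ℚ}
    (hx : ∀ J : Finset (Fin k), J.card ≤ c + 1 → ∀ m : {j // j ∈ J} → ℕ, (∀ j, m j ≤ D) →
      (n + 1) * finrank ℚ ((Sol A).map (dir (pt J x fun j => (m j : ℚ)))) +
        (Mx A (pt J x fun j => (m j : ℚ))).rank ≤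
      (n + 1) * finrank ℚ ((Sol A).map (dir x)) + (Mx A x).rank) :
    k ≤ finrank ℚ ((Sol A).map (dir x)) + c :=
  codim_of_card fun _ hJ => ind_card hM (by omega) (opt_dim hx) hJ

end Pool.Agent.L5helper60.MO
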