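import Pool.Agent.L5helper60.SR.Fin
import Pool.Agent.L5helper60.MO.Alg
import Pool.Agent.L5helper60.MO.Opt

set_option autoImplicit false

/-!
# Correctness of the algorithm
-/

namespace Pool.Agent.L5helper60.MO

open Module Submodule Function
open Pool.Agent.Lib.CX Pool.Agent.Lib.helper22.CXDet
open Pool.Agent.Lib.Par (rk rk_eq pt_rk ls_opt)
open Pool.Agent.L5helper60.SR (Inp dim mat val pol ent cden ient et ient_cast cden_ne mat_apply
  det_eq_zero_iff eval_det)

/-- the rank of a table of scalar products -/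
theorem rk_gram {ι : Type} [Fintype ι] (v : ℕ → ι → ℚ) {G : List (List ℤ)}
    (hG : ∀ i < G.length, ∀ j < G.length, (en G i j : ℚ) = v i ⬝ᵥ v j) :
    rk G = finrank ℚ (span ℚ (v '' Set.Iio G.length)) := by
  let β : LinearMap.BilinForm ℚ (ι → ℚ) :=
    LinearMap.mk₂ ℚ (fun x y => x ⬝ᵥ y) (by intros; simp) (by intros; simp) (by intros; simp)
      (by intros; simp)
  have hp : ∀ x, x ≠ 0 → 0 < β x x := fun x hx => by
    have k : 0 ≤ x ⬝ᵥ x := Finset.sum_nonneg fun i _ => mul_self_nonneg _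
    refine lt_of_le_of_ne k fun e => hx ?_
    exact dotProduct_self_eq_zero.1 e.symm
  exact rk_eq (β := β) (fun x y => by simp [β, dotProduct_comm]) hp v hG

lemma sum_range_map {M : Type} [AddCommMonoid M] (m : ℕ) (f : ℕ → M) :
    ((List.range m).map f).sum = ∑ i : Fin m, f i := by
  rw [← List.sum_toFinset _ List.nodup_range, List.toFinset_range, Finset.sum_range]

/-- the rank of a table -/
theorem rnk_eq {n : ℕ} {A : List (List ℤ)} {M : Matrix (Fin n) (Fin n) ℚ}
    (h : ∀ s t : Fin n, (en A s t : ℚ) = M s t) : rnk n A = M.rank := by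
  have l : ∀ m f, (tb m f).length = m := by simp [tb]
  have hset : (fun r (s : Fin n) => (en A r s : ℚ)) '' Set.Iio n = Set.range M.row := by
    ext v
    constructor
    · rintro ⟨r, hr, rfl⟩
      exact ⟨⟨r, hr⟩, funext fun s => (h ⟨r, hr⟩ s).symm⟩
    · rintro ⟨r, rfl⟩
      exact ⟨r, r.2, funext fun s => h r s⟩
  rw [rnk, rk_gram (fun r (s : Fin n) => (en A r s : ℚ)) fun i hi j hj => ?_, l,
    Matrix.rank_eq_finrank_span_row, hset]
  · rw [l] at hi hj
    rw [en_tb hi hj, sum_range_map, dotProduct]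
    push_cast
    rfl

/-! ### The system of linear equations -/

/-- the coefficient matrices -/
def cm (L : Inp) (l : Fin (nv L + 1)) : Matrix (Fin (dim L)) (Fin (dim L)) ℚ := mat L l

/-- the linear map of the system -/
def T (L : Inp) (x : Fin (nv L) → ℚ) : (Un (dim L) (nv L) → ℚ) →ₗ[ℚ]
    ((Fin (nv L + 1) × Fin (dim L) × Fin (dim L)) ⊕ Fin (nv L) → ℚ) where
  toFun w := Sum.elim (fun r => (cden L : ℚ) * eqn (cm L) w r.1 r.2.1 r.2.2) (dir x w)
  map_add' w w' := by
    funext r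
    rcases r with r | i
    · simp only [map_add, Sum.elim_inl, Pi.add_apply, Matrix.add_apply, mul_add]
    · simp only [map_add, Sum.elim_inr, Pi.add_apply]
  map_smul' c w := by
    funext r
    rcases r with r | i
    · simp only [map_smul, Sum.elim_inl, Pi.smul_apply, Matrix.smul_apply, smul_eq_mul,
        RingHom.id_apply]
      ring
    · simp only [map_smul, Sum.elim_inr, Pi.smul_apply, RingHom.id_apply]

/-- the code of an unknown -/
def ecd (L : Inp) : Un (dim L) (nv L) → ℕ × ℕ × ℕ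
  | Sum.inl u => (0, u.1, u.2)
  | Sum.inr (Sum.inl u) => (1, u.1, u.2)
  | Sum.inr (Sum.inr u) => (2, u.1, u.2)

lemma mem_us (L : Inp) (u : ℕ × ℕ × ℕ) : u ∈ us L ↔ ∃ u', ecd L u' = u := by
  simp only [us, List.mem_append, List.mem_flatMap, List.mem_map, List.mem_range]
  constructor
  · rintro (⟨s, hs, t, ht, rfl⟩ | ⟨s, hs, t, ht, rfl⟩ | ⟨s, hs, t, ht, rfl⟩)
    · exact ⟨Sum.inl (⟨s, hs⟩, ⟨t, ht⟩), rfl⟩
    · exact ⟨Sum.inr (Sum.inl (⟨s, hs⟩, ⟨t, ht⟩)), rfl⟩
    · exact ⟨Sum.inr (Sum.inr (⟨s, hs⟩, ⟨t, ht⟩)), rfl⟩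
  · rintro ⟨u' | u' | u', rfl⟩
    · exact Or.inl ⟨u'.1, u'.1.2, u'.2, u'.2.2, rfl⟩
    · exact Or.inr (Or.inl ⟨u'.1, u'.1.2, u'.2, u'.2.2, rfl⟩)
    · exact Or.inr (Or.inr ⟨u'.1, u'.1.2, u'.2, u'.2.2, rfl⟩)

/-- the column of an unknown -/
def col (L : Inp) (x : List ℕ) (u : ℕ × ℕ × ℕ) :
    (Fin (nv L + 1) × Fin (dim L) × Fin (dim L)) ⊕ Fin (nv L) → ℚ :=
  Sum.elim (fun r => (ce L u r.1 r.2.1 r.2.2 : ℚ)) (fun i => (cv x u i : ℚ))

lemma gr_cast (L : Inp) (x : List ℕ) (u u' : ℕ × ℕ × ℕ) :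
    (gr L x u u' : ℚ) = col L x u ⬝ᵥ col L x u' := by
  simp only [gr, sum_range_map]
  rw [dotProduct, Fintype.sum_sum_type, Fintype.sum_prod_type]
  simp only [Fintype.sum_prod_type, col, Sum.elim_inl, Sum.elim_inr]
  push_cast
  rfl

lemma ient_cm (L : Inp) (l : Fin (nv L + 1)) (s t : Fin (dim L)) :
    (ient L l s t : ℚ) = (cden L : ℚ) * cm L l s t := by
  rw [ient_cast, cm, mat_apply]

lemma col_eq (L : Inp) (x : List ℕ) (u : Un (dim L) (nv L)) :
    col L x (ecd L u) = T L (fun i => ((x.getD i 0 : ℕ) : ℚ)) (Pi.single u 1) := by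
  funext r
  rcases r with ⟨l, s, t⟩ | i
  · show (ce L (ecd L u) l s t : ℚ) = (cden L : ℚ) * eqn (cm L) (Pi.single u 1) l s t
    rw [eqn_apply]
    rcases u with ⟨a, b⟩ | ⟨a, b⟩ | ⟨a, b⟩
    · simp only [ce, ecd, Pi.single_apply]
      by_cases h : s = a
      · subst h
        simp [ient_cm]
      · simp [h, Fin.val_ne_of_ne h]
    · simp only [ce, ecd, Pi.single_apply]
      by_cases h : t = b
      · subst h
        simp [ient_cm]
      · simp [h, Fin.val_ne_of_ne h]
    · simp only [ce, ecd, Pi.single_apply]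
      by_cases h : b = l
      · subst h
        have := ient_cm L a.succ s t
        rw [Fin.val_succ] at this
        simp [this]
      · have h' : ¬ l = b := fun e => h e.symm
        simp [h', Fin.val_ne_of_ne h]
  · show (cv x (ecd L u) i : ℚ) = dir (fun i => ((x.getD i 0 : ℕ) : ℚ)) (Pi.single u 1) i
    have hd : ∀ w : Un (dim L) (nv L) → ℚ, dir (fun i => ((x.getD i 0 : ℕ) : ℚ)) w i =
      w (Sum.inr (Sum.inr (i, 0))) + ∑ j : Fin (nv L), w (Sum.inr (Sum.inr (i, j.succ))) *
        ((x.getD j 0 : ℕ) : ℚ) := fun _ => rfl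
    rw [hd]
    rcases u with ⟨a, b⟩ | ⟨a, b⟩ | ⟨a, b⟩
    · simp [cv, ecd]
    · simp [cv, ecd]
    · simp only [cv, ecd, Pi.single_apply]
      by_cases h : a = i
      · subst h
        refine Fin.cases ?_ (fun b => ?_) b
        · simp
        · simp [(Fin.succ_ne_zero b).symm]
      · have h' : ¬ i = a := fun e => h e.symm
        simp [h', Fin.val_ne_of_ne h]

lemma ker_T (L : Inp) (x : Fin (nv L) → ℚ) :
    LinearMap.ker (T L x) = Sol (cm L) ⊓ LinearMap.ker (dir x) := by
  ext w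
  rw [Submodule.mem_inf, Sol, LinearMap.mem_ker, LinearMap.mem_ker, LinearMap.mem_ker]
  constructor
  · intro h
    refine ⟨?_, ?_⟩
    · funext l
      refine Matrix.ext fun s t => ?_
      have h1 : (cden L : ℚ) * eqn (cm L) w l s t = 0 := congrFun h (Sum.inl (l, s, t))
      exact (mul_eq_zero.1 h1).resolve_left (cden_ne L)
    · funext i
      exact congrFun h (Sum.inr i)
  · rintro ⟨h1, h2⟩
    funext r
    rcases r with ⟨l, s, t⟩ | i
    · show (cden L : ℚ) * eqn (cm L) w l s t = 0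
      rw [h1]
      simp
    · exact congrFun h2 i

lemma en_map {κ : Type} {l : List κ} (d : κ) (g : κ → κ → ℤ) {i j : ℕ} (hi : i < l.length)
    (hj : j < l.length) :
    en (l.map fun u => l.map fun u' => g u u') i j = g (l.getD i d) (l.getD j d) := by
  unfold en
  have h1 : (l.map fun u => l.map fun u' => g u u').getD i [] =
      l.map fun u' => g (l.getD i d) u' := by
    rw [List.getD_eq_getElem _ _ (by rw [List.length_map]; exact hi), List.getElem_map,
      List.getD_eq_getElem _ _ hi]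
  rw [h1, List.getD_eq_getElem _ _ (by rw [List.length_map]; exact hj), List.getElem_map,
    List.getD_eq_getElem _ _ hj]

/-- the rank of a table of scalar products of columns -/
theorem rk_table {L : Inp} {ι : Type} [Fintype ι]
    (T' : (Un (dim L) (nv L) → ℚ) →ₗ[ℚ] (ι → ℚ)) (g : ℕ × ℕ × ℕ → ℕ × ℕ × ℕ → ℤ)
    (cl : ℕ × ℕ × ℕ → ι → ℚ) (h1 : ∀ u u', (g u u' : ℚ) = cl u ⬝ᵥ cl u')
    (h2 : ∀ u, cl (ecd L u) = T' (Pi.single u 1)) :
    rk ((us L).map fun u => (us L).map fun u' => g u u') = finrank ℚ (LinearMap.range T') := by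
  rw [rk_gram (fun i => cl ((us L).getD i (0, 0, 0))) fun i hi j hj => ?_]
  · have hset : (fun i => cl ((us L).getD i (0, 0, 0))) '' Set.Iio
        ((us L).map fun u => (us L).map fun u' => g u u').length =
        Set.range fun u => T' (Pi.single u 1) := by
      rw [List.length_map]
      ext v
      constructor
      · rintro ⟨i, hi, rfl⟩
        obtain ⟨u, hu⟩ := (mem_us L _).1 (List.getElem_mem (n := i) hi)
        refine ⟨u, ?_⟩
        beta_reduce
        rw [← h2, hu, List.getD_eq_getElem _ _ hi]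
      · rintro ⟨u, rfl⟩
        obtain ⟨i, hi, he⟩ := List.mem_iff_getElem.1 ((mem_us L (ecd L u)).2 ⟨u, rfl⟩)
        refine ⟨i, hi, ?_⟩
        beta_reduce
        rw [← h2, List.getD_eq_getElem _ _ hi, he]
    have hb : (fun u => T' (Pi.single u 1)) =
        T' ∘ Pi.basisFun ℚ (Un (dim L) (nv L)) :=
      funext fun u => by rw [Function.comp_apply, Pi.basisFun_apply]
    rw [hset, LinearMap.range_eq_map, ← (Pi.basisFun ℚ (Un (dim L) (nv L))).span_eq,
      Submodule.map_span, ← Set.range_comp, hb]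
  · rw [List.length_map] at hi hj
    rw [← h1, en_map (0, 0, 0) g hi hj]

/-- **The rank of the system of linear equations.** -/
theorem rk_gt (L : Inp) (x : List ℕ) : rk (gt L x) + finrank ℚ (Sol (cm L)) =
    Fintype.card (Un (dim L) (nv L)) +
      finrank ℚ ((Sol (cm L)).map (dir fun i => ((x.getD i 0 : ℕ) : ℚ))) := by
  have h1 : rk (gt L x) =
      finrank ℚ (LinearMap.range (T L fun i => ((x.getD i 0 : ℕ) : ℚ))) :=
    rk_table _ _ (col L x) (gr_cast L x) (col_eq L x)
  have h2 := LinearMap.finrank_range_add_finrank_ker (T L fun i => ((x.getD i 0 : ℕ) : ℚ))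
  rw [ker_T, Module.finrank_fintype_fun_eq_card] at h2
  have h3 := fr_map (Sol (cm L)) (dir fun i => ((x.getD i 0 : ℕ) : ℚ))
  omega

/-- the linear map of the equations -/
def T₀ (L : Inp) : (Un (dim L) (nv L) → ℚ) →ₗ[ℚ]
    (Fin (nv L + 1) × Fin (dim L) × Fin (dim L) → ℚ) :=
  (LinearMap.funLeft ℚ ℚ Sum.inl).comp (T L 0)

theorem rk_gt₀ (L : Inp) : rk (gt₀ L) + finrank ℚ (Sol (cm L)) =
    Fintype.card (Un (dim L) (nv L)) := by
  have h1 : rk (gt₀ L) = finrank ℚ (LinearMap.range (T₀ L)) := by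
    refine rk_table _ _ (fun u r => (ce L u r.1 r.2.1 r.2.2 : ℚ)) (fun u u' => ?_) fun u => ?_
    · simp only [gr₀, sum_range_map]
      rw [dotProduct, Fintype.sum_prod_type]
      simp only [Fintype.sum_prod_type]
      push_cast
      rfl
    · funext r
      exact congrFun (col_eq L [] u) (Sum.inl r)
  have h2 := LinearMap.finrank_range_add_finrank_ker (T₀ L)
  have h3 : LinearMap.ker (T₀ L) = Sol (cm L) := by
    ext w
    rw [Sol, LinearMap.mem_ker, LinearMap.mem_ker]
    constructor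
    · intro h
      funext l
      refine Matrix.ext fun s t => ?_
      have h1 : (cden L : ℚ) * eqn (cm L) w l s t = 0 := congrFun h (l, s, t)
      exact (mul_eq_zero.1 h1).resolve_left (cden_ne L)
    · intro h
      funext r
      show (cden L : ℚ) * eqn (cm L) w r.1 r.2.1 r.2.2 = 0
      rw [h]
      simp
  rw [h3, Module.finrank_fintype_fun_eq_card] at h2
  omega

end Pool.Agent.L5helper60.MO
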