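import Mathlib

set_option autoImplicit false

/-!
# The modality of a matrix of polynomials of degree at most one

Definitions only.
-/

namespace Pool.Agent.L5helper60.MO

/-- The matrix `A₀ + y₁ A₁ + … + y_k A_k` for elements `y₁`, …, `y_k` of a commutative ring which
contains the rational numbers. -/
def Mx {R : Type} [CommRing R] [Algebra ℚ R] {n k : ℕ}
    (A : Fin (k + 1) → Matrix (Fin n) (Fin n) ℚ) (y : Fin k → R) : Matrix (Fin n) (Fin n) R :=
  (A 0).map (algebraMap ℚ R) + ∑ i : Fin k, y i • (A i.succ).map (algebraMap ℚ R)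

/-- The modality of `A₀ + y₁ A₁ + … + y_k A_k` is at most `c`: there is a countable subfield `K` of
the complex numbers such that for all complex numbers `y₁`, …, `y_k` there are invertible matrices
`P`, `Q` which map the space of all matrices `A₀ + z₁ A₁ + … + z_k A_k` into itself such that the
entries of `P (A₀ + y₁ A₁ + … + y_k A_k) Q` are algebraic over the field generated by `c` complex
numbers over `K`. -/
def Mod {n k : ℕ} (A : Fin (k + 1) → Matrix (Fin n) (Fin n) ℚ) (c : ℕ) : Prop :=
  ∃ K : Subfield ℂ, (K : Set ℂ).Countable ∧ ∀ y : Fin k → ℂ,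
    ∃ (P Q : Matrix (Fin n) (Fin n) ℂ) (s : Fin c → ℂ), IsUnit P ∧ IsUnit Q ∧
      (∀ z : Fin k → ℂ, ∃ z', P * Mx A z * Q = Mx A z') ∧
      ∀ i j, IsAlgebraic (IntermediateField.adjoin K (Set.range s)) ((P * Mx A y * Q) i j)

end Pool.Agent.L5helper60.MO
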