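import Pool.Agent.L5helper60.MO.Cls

/-!
# Examples of spaces of matrices of modality zero
-/

set_option autoImplicit false

namespace Pool.Agent.L5helper60.MO

lemma countable_rat (κ κ' : Type) [Finite κ] [Finite κ'] :
    (Set.range fun q : Matrix κ κ' ℚ => q.map (algebraMap ℚ ℂ)).Countable := by
  have : Countable (Matrix κ κ' ℚ) := inferInstanceAs (Countable (κ → κ' → ℚ))
  exact Set.countable_range _

/-! ### All matrices -/

/-- separation of an index -/
noncomputable def sep {ι : Type} [DecidableEq ι] (i : ι) : (Unit ⊕ {x // x ≠ i}) ≃ ι :=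
  Equiv.ofBijective (Sum.elim (fun _ => i) Subtype.val) (by
    constructor
    · rintro (a | a) (b | b) hab
      · rfl
      · exact absurd hab.symm b.2
      · exact absurd hab a.2
      · exact congrArg Sum.inr (Subtype.ext hab)
    · intro x
      by_cases h1 : x = i
      · exact ⟨Sum.inl (), h1.symm⟩
      · exact ⟨Sum.inr ⟨x, h1⟩, rfl⟩)

/-- **All complex matrices are equivalent to rational matrices.** -/
theorem exists_rat (m : ℕ) : ∀ {ι ι' : Type} [Fintype ι] [Fintype ι'] [DecidableEq ι]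
    [DecidableEq ι'] (M : Matrix ι ι' ℂ), Fintype.card ι ≤ m →
    ∃ (P : Matrix ι ι ℂ) (Q : Matrix ι' ι' ℂ) (N : Matrix ι ι' ℚ),
      IsUnit P ∧ IsUnit Q ∧ P * M * Q = N.map (algebraMap ℚ ℂ) := by
  induction m with
  | zero =>
    intro ι ι' _ _ _ _ M h0
    have : IsEmpty ι := Fintype.card_eq_zero_iff.1 (by omega)
    exact ⟨1, 1, 0, isUnit_one, isUnit_one, Subsingleton.elim _ _⟩
  | succ m ih =>
    intro ι ι' _ _ _ _ M hc
    by_cases h0 : M = 0
    · exact ⟨1, 1, 0, isUnit_one, isUnit_one, by rw [h0]; simp⟩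
    obtain ⟨i, j, hij⟩ : ∃ i j, M i j ≠ 0 := by
      by_contra h
      push Not at h
      exact h0 (Matrix.ext h)
    let e := sep i
    let f := sep j
    have hM : M.submatrix e f = Matrix.fromBlocks (Matrix.of fun (_ _ : Unit) => M i j)
        (Matrix.of fun (_ : Unit) (y : {y // y ≠ j}) => M i y)
        (Matrix.of fun (x : {x // x ≠ i}) (_ : Unit) => M x j)
        (Matrix.of fun (x : {x // x ≠ i}) (y : {y // y ≠ j}) => M x y) := by
      ext a b
      rcases a with a | a <;> rcases b with b | b <;> rfl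
    obtain ⟨r, hr⟩ : ∃ r : Matrix Unit {y // y ≠ j} ℂ, r =
      Matrix.of fun (_ : Unit) (y : {y // y ≠ j}) => M i y := ⟨_, rfl⟩
    obtain ⟨t, ht⟩ : ∃ t : Matrix {x // x ≠ i} Unit ℂ, t =
      Matrix.of fun (x : {x // x ≠ i}) (_ : Unit) => M x j := ⟨_, rfl⟩
    obtain ⟨D, hD⟩ : ∃ D : Matrix {x // x ≠ i} {y // y ≠ j} ℂ, D =
      Matrix.of fun (x : {x // x ≠ i}) (y : {y // y ≠ j}) => M x y := ⟨_, rfl⟩
    have hm : (Matrix.of fun _ _ => M i j : Matrix Unit Unit ℂ) = (M i j) • 1 := by
      ext a b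
      simp
    rw [← hr, ← ht, ← hD, hm] at hM
    obtain ⟨P₁, Q₁, N₁, hP₁, hQ₁, hN₁⟩ := ih (D - (M i j)⁻¹ • (t * r)) (by
      have h1 := Fintype.card_congr e
      rw [Fintype.card_sum, Fintype.card_unit] at h1
      omega)
    let U : Matrix (Unit ⊕ {x // x ≠ i}) (Unit ⊕ {x // x ≠ i}) ℂ :=
      Matrix.fromBlocks ((M i j)⁻¹ • 1) 0 (-(M i j)⁻¹ • t) 1
    let V : Matrix (Unit ⊕ {y // y ≠ j}) (Unit ⊕ {y // y ≠ j}) ℂ :=
      Matrix.fromBlocks 1 (-(M i j)⁻¹ • r) 0 1
    have hU : IsUnit U := by
      refine isUnit_iff_exists.2 ⟨Matrix.fromBlocks ((M i j) • 1) 0 t 1, ?_, ?_⟩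
      · simp [U, Matrix.fromBlocks_multiply, Matrix.fromBlocks_one, smul_smul, hij]
      · simp [U, Matrix.fromBlocks_multiply, Matrix.fromBlocks_one, smul_smul, hij]
    have hV : IsUnit V := by
      refine isUnit_iff_exists.2 ⟨Matrix.fromBlocks 1 ((M i j)⁻¹ • r) 0 1, ?_, ?_⟩
      · simp [V, Matrix.fromBlocks_multiply, Matrix.fromBlocks_one]
      · simp [V, Matrix.fromBlocks_multiply, Matrix.fromBlocks_one]
    have h1 : U * M.submatrix e f * V =
        Matrix.fromBlocks 1 0 0 (D - (M i j)⁻¹ • (t * r)) := by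
      rw [hM]
      simp only [U, V, Matrix.fromBlocks_multiply, Matrix.zero_mul, Matrix.mul_zero, add_zero,
        Matrix.smul_mul, Matrix.mul_smul, Matrix.one_mul, Matrix.mul_one, smul_smul,
        neg_smul, Matrix.neg_mul, Matrix.mul_neg, smul_neg]
      rw [mul_inv_cancel₀ hij, mul_one]
      simp only [one_smul, neg_add_cancel, Matrix.zero_mul, smul_zero, neg_zero, zero_add]
      congr 1
      abel
    have hP : IsUnit (Matrix.fromBlocks (1 : Matrix Unit Unit ℂ) 0 0 P₁ * U) :=
      (isUnit_blocks isUnit_one hP₁).mul hU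
    have hQ : IsUnit (V * Matrix.fromBlocks (1 : Matrix Unit Unit ℂ) 0 0 Q₁) :=
      hV.mul (isUnit_blocks isUnit_one hQ₁)
    refine ⟨(Matrix.fromBlocks 1 0 0 P₁ * U).submatrix e.symm e.symm,
      (V * Matrix.fromBlocks 1 0 0 Q₁).submatrix f.symm f.symm,
      (Matrix.fromBlocks (1 : Matrix Unit Unit ℚ) 0 0 N₁).submatrix e.symm f.symm,
      isUnit_reindex e.symm hP, isUnit_reindex f.symm hQ, ?_⟩
    have h3 : M = (M.submatrix e f).submatrix e.symm f.symm := by
      ext a b
      simp
    rw [h3, Matrix.submatrix_mul_equiv, Matrix.submatrix_mul_equiv]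
    have h4 : Matrix.fromBlocks (1 : Matrix Unit Unit ℂ) 0 0 P₁ * U * M.submatrix e f *
        (V * Matrix.fromBlocks (1 : Matrix Unit Unit ℂ) 0 0 Q₁) =
          Matrix.fromBlocks (1 : Matrix Unit Unit ℂ) 0 0 P₁ *
          (U * M.submatrix e f * V) * Matrix.fromBlocks (1 : Matrix Unit Unit ℂ) 0 0 Q₁ := by
      simp only [Matrix.mul_assoc]
    rw [h4, h1, Matrix.fromBlocks_multiply, Matrix.fromBlocks_multiply]
    simp only [Matrix.zero_mul, Matrix.mul_zero, add_zero, zero_add, Matrix.one_mul, hN₁]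
    ext a b
    rcases ha : e.symm a with a' | a' <;> rcases hb : f.symm b with b' | b' <;>
      simp [Matrix.submatrix_apply, ha, hb]

/-- **The space of all matrices has modality zero.** -/
theorem modality_univ {ι ι' : Type} [Fintype ι] [Fintype ι'] [DecidableEq ι]
    [DecidableEq ι'] : Modality (Set.univ : Set (Matrix ι ι' ℂ)) 0 := by
  refine modality_of_countable (countable_rat ι ι') fun M _ => ?_
  obtain ⟨P, Q, N, hP, hQ, h⟩ := exists_rat _ M le_rfl
  exact ⟨P, Q, hP, hQ, fun _ _ => Set.mem_univ _, ⟨N, h.symm⟩⟩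

/-! ### Skew-symmetric matrices -/

/-- **Skew-symmetric complex matrices are congruent to rational matrices.** -/
theorem skew_nf (m : ℕ) : ∀ {ι : Type} [Fintype ι] [DecidableEq ι] (S : Matrix ι ι ℂ),
    Fintype.card ι ≤ m → S.transpose = -S → ∃ (P : Matrix ι ι ℂ) (N : Matrix ι ι ℚ),
      IsUnit P ∧ P * S * P.transpose = N.map (algebraMap ℚ ℂ) := by
  induction m with
  | zero =>
    intro ι _ _ S h0 _
    have : IsEmpty ι := Fintype.card_eq_zero_iff.1 (by omega)
    exact ⟨1, 0, isUnit_one, Subsingleton.elim _ _⟩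
  | succ m ih =>
    intro ι _ _ S hc hS
    have hS' : ∀ a b, S a b = - S b a := fun a b => congrFun (congrFun hS b) a
    by_cases h0 : S = 0
    · exact ⟨1, 0, isUnit_one, by rw [h0]; simp⟩
    obtain ⟨i, j, hij⟩ : ∃ i j, S i j ≠ 0 := by
      by_contra h
      push Not at h
      exact h0 (Matrix.ext h)
    have hne : i ≠ j := by
      rintro rfl
      have := hS' i i
      apply hij
      linear_combination (1 / 2 : ℂ) * this
    have hsii : ∀ a, S a a = 0 := fun a => by
      have := hS' a a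
      linear_combination (1 / 2 : ℂ) * this
    -- the decomposition of the index set
    let f : Fin 2 ⊕ {x // x ≠ i ∧ x ≠ j} → ι := Sum.elim ![i, j] Subtype.val
    have hf : Function.Bijective f := by
      constructor
      · rintro (a | a) (b | b) hab
        · have : ![i, j] a = ![i, j] b := hab
          fin_cases a <;> fin_cases b
          · rfl
          · exact absurd this hne
          · exact absurd this.symm hne
          · rfl
        · have : ![i, j] a = b.1 := hab
          exfalso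
          have hb := b.2
          rw [← this] at hb
          fin_cases a
          · exact hb.1 rfl
          · exact hb.2 rfl
        · have : a.1 = ![i, j] b := hab
          exfalso
          have ha := a.2
          rw [this] at ha
          fin_cases b
          · exact ha.1 rfl
          · exact ha.2 rfl
        · exact congrArg Sum.inr (Subtype.ext hab)
      · intro x
        by_cases h1 : x = i
        · exact ⟨Sum.inl 0, h1.symm⟩
        by_cases h2 : x = j
        · exact ⟨Sum.inl 1, h2.symm⟩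
        · exact ⟨Sum.inr ⟨x, h1, h2⟩, rfl⟩
    let e : (Fin 2 ⊕ {x // x ≠ i ∧ x ≠ j}) ≃ ι := Equiv.ofBijective f hf
    have he : ∀ a, e a = f a := fun _ => rfl
    -- the blocks
    obtain ⟨s, hs⟩ : ∃ s, s = S i j := ⟨_, rfl⟩
    have hs0 : s ≠ 0 := by rw [hs]; exact hij
    let E : Matrix (Fin 2) (Fin 2) ℂ := !![0, s; -s, 0]
    let E' : Matrix (Fin 2) (Fin 2) ℂ := !![0, -s⁻¹; s⁻¹, 0]
    have hEE : E * E' = 1 := by
      ext a b
      fin_cases a <;> fin_cases b <;> simp [E, E', Matrix.mul_apply, Fin.sum_univ_two, hs0]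
    have hEE' : E' * E = 1 := by
      ext a b
      fin_cases a <;> fin_cases b <;> simp [E, E', Matrix.mul_apply, Fin.sum_univ_two, hs0]
    have hEt : E'.transpose = -E' := by
      ext a b
      fin_cases a <;> fin_cases b <;> simp [E']
    let F : Matrix (Fin 2) {x // x ≠ i ∧ x ≠ j} ℂ := Matrix.of fun a x => S (![i, j] a) x
    let D : Matrix {x // x ≠ i ∧ x ≠ j} {x // x ≠ i ∧ x ≠ j} ℂ := Matrix.of fun x y => S x y
    have hD : D.transpose = -D := by
      ext x y
      exact hS' y x
    have hSb : S.submatrix e e = Matrix.fromBlocks E F (-F.transpose) D := by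
      ext a b
      rcases a with a | a <;> rcases b with b | b
      · show S (![i, j] a) (![i, j] b) = E a b
        fin_cases a <;> fin_cases b
        · simpa [E] using hsii i
        · simp [E, hs]
        · simpa [E, hs] using hS' j i
        · simpa [E] using hsii j
      · rfl
      · show S a (![i, j] b) = - S (![i, j] b) a
        exact hS' _ _
      · rfl
    -- the Schur complement
    obtain ⟨P₁, N₁, hP₁, hN₁⟩ := ih (D + F.transpose * E' * F) (by
      have h1 := Fintype.card_congr e
      rw [Fintype.card_sum, Fintype.card_fin] at h1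
      omega) (by
      rw [Matrix.transpose_add, hD, Matrix.transpose_mul, Matrix.transpose_mul, hEt,
        Matrix.transpose_transpose, neg_add, Matrix.neg_mul, Matrix.mul_neg, Matrix.mul_assoc])
    let U : Matrix (Fin 2 ⊕ {x // x ≠ i ∧ x ≠ j}) (Fin 2 ⊕ {x // x ≠ i ∧ x ≠ j}) ℂ :=
      Matrix.fromBlocks 1 0 (F.transpose * E') 1
    let V : Matrix (Fin 2 ⊕ {x // x ≠ i ∧ x ≠ j}) (Fin 2 ⊕ {x // x ≠ i ∧ x ≠ j}) ℂ :=
      Matrix.fromBlocks (Matrix.diagonal ![s⁻¹, 1]) 0 0 P₁
    have hU : IsUnit U := by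
      refine isUnit_iff_exists.2 ⟨Matrix.fromBlocks 1 0 (-(F.transpose * E')) 1, ?_, ?_⟩
      · simp [U, Matrix.fromBlocks_multiply, Matrix.fromBlocks_one]
      · simp [U, Matrix.fromBlocks_multiply, Matrix.fromBlocks_one]
    have hV : IsUnit V := by
      refine isUnit_blocks ?_ hP₁
      rw [Matrix.isUnit_iff_isUnit_det, Matrix.det_diagonal, isUnit_iff_ne_zero,
        Fin.prod_univ_two]
      simp [hs0]
    have h1 : U * S.submatrix e e * U.transpose =
        Matrix.fromBlocks E 0 0 (D + F.transpose * E' * F) := by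
      rw [hSb]
      simp only [U, Matrix.fromBlocks_transpose, Matrix.fromBlocks_multiply, Matrix.transpose_one,
        Matrix.transpose_zero, Matrix.one_mul, Matrix.mul_one, Matrix.zero_mul, Matrix.mul_zero,
        add_zero, Matrix.transpose_mul, hEt, Matrix.transpose_transpose]
      rw [Matrix.mul_assoc _ E' E, hEE', Matrix.mul_one]
      congr 1
      · rw [Matrix.neg_mul, Matrix.mul_neg, ← Matrix.mul_assoc, hEE, Matrix.one_mul]
        abel
      · abel
      · rw [add_neg_cancel, Matrix.zero_mul, zero_add]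
        abel
    have h2 : V * (U * S.submatrix e e * U.transpose) * V.transpose =
        (Matrix.fromBlocks !![0, 1; -1, 0] 0 0 N₁).map (algebraMap ℚ ℂ) := by
      rw [h1]
      simp only [V, Matrix.fromBlocks_transpose, Matrix.fromBlocks_multiply,
        Matrix.transpose_zero, Matrix.zero_mul, Matrix.mul_zero, add_zero, zero_add, hN₁,
        Matrix.fromBlocks_map]
      congr 1
      · ext a b
        fin_cases a <;> fin_cases b <;>
          simp [E, Matrix.mul_apply, Matrix.transpose_apply, Matrix.diagonal, hs0]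
      · ext a b
        simp
      · ext a b
        simp
    have hUV : IsUnit (V * U) := hV.mul hU
    obtain ⟨W, hW1, hW2⟩ := isUnit_iff_exists.1 hUV
    refine ⟨(V * U).submatrix e.symm e.symm,
      (Matrix.fromBlocks !![0, 1; -1, 0] 0 0 N₁).submatrix e.symm e.symm,
      isUnit_iff_exists.2 ⟨W.submatrix e.symm e.symm, ?_, ?_⟩, ?_⟩
    · rw [Matrix.submatrix_mul_equiv, hW1, Matrix.submatrix_one_equiv]
    · rw [Matrix.submatrix_mul_equiv, hW2, Matrix.submatrix_one_equiv]
    · have h3 : S = (S.submatrix e e).submatrix e.symm e.symm := by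
        ext a b
        simp
      rw [h3, Matrix.submatrix_mul_equiv, Matrix.transpose_submatrix, Matrix.submatrix_mul_equiv,
        Matrix.transpose_mul]
      have h4 : V * U * S.submatrix e e * (U.transpose * V.transpose) =
          V * (U * S.submatrix e e * U.transpose) * V.transpose := by
        simp only [Matrix.mul_assoc]
      rw [h4, h2]
      rfl

variable {ι : Type} [Fintype ι] [DecidableEq ι]

/-- **The space of skew-symmetric matrices has modality zero.** -/
theorem modality_skew : Modality {S : Matrix ι ι ℂ | S.transpose = -S} 0 := by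
  refine modality_of_countable (countable_rat ι ι) fun S hS => ?_
  obtain ⟨P, N, hP, hN⟩ := skew_nf _ S le_rfl hS
  refine ⟨P, P.transpose, hP, ?_, fun T hT => ?_, ⟨N, hN.symm⟩⟩
  · rw [Matrix.isUnit_iff_isUnit_det, Matrix.det_transpose, ← Matrix.isUnit_iff_isUnit_det]
    exact hP
  · show (P * T * P.transpose).transpose = -(P * T * P.transpose)
    have hT : T.transpose = -T := hT
    rw [Matrix.transpose_mul, Matrix.transpose_mul, Matrix.transpose_transpose, hT,
      Matrix.neg_mul, Matrix.mul_neg, Matrix.mul_assoc]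

/-- Skew-symmetric matrices of odd order are singular. -/
theorem det_skew (hn : Odd (Fintype.card ι)) {S : Matrix ι ι ℂ} (hS : S.transpose = -S) :
    S.det = 0 := by
  have h2 := Matrix.det_transpose S
  rw [hS, Matrix.det_neg, hn.neg_one_pow] at h2
  linear_combination (-1 / 2 : ℂ) * h2

lemma mem_skew {U : Submodule ℂ (ι → ℂ)} {u w : ι → ℂ} (hu : u ∈ U) (hu0 : u ≠ 0)
    (hw : u ⬝ᵥ w = 0) :
    w ∈ ⨆ S ∈ {S : Matrix ι ι ℂ | S.transpose = -S}, U.map S.mulVecLin := by
  obtain ⟨i, hi⟩ : ∃ i, u i ≠ 0 := by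
    by_contra h
    push Not at h
    exact hu0 (funext h)
  obtain ⟨v, hv⟩ : ∃ v : ι → ℂ, v ⬝ᵥ u = 1 :=
    ⟨Pi.single i (u i)⁻¹, by rw [single_dotProduct, inv_mul_cancel₀ hi]⟩
  have hS : (Matrix.vecMulVec w v - Matrix.vecMulVec v w).transpose =
      -(Matrix.vecMulVec w v - Matrix.vecMulVec v w) := by
    rw [Matrix.transpose_sub, Matrix.transpose_vecMulVec, Matrix.transpose_vecMulVec, neg_sub]
  refine Submodule.mem_iSup_of_mem _ (Submodule.mem_iSup_of_mem hS ⟨u, hu, ?_⟩)
  rw [Matrix.mulVecLin_apply, Matrix.sub_mulVec]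
  funext j
  show (∑ l, w j * v l * u l) - ∑ l, v j * w l * u l = w j
  have h4 : ∑ l, w j * v l * u l = w j * (v ⬝ᵥ u) := by
    rw [dotProduct, Finset.mul_sum]
    exact Finset.sum_congr rfl fun l _ => by ring
  have h5 : ∑ l, v j * w l * u l = v j * (u ⬝ᵥ w) := by
    rw [dotProduct, Finset.mul_sum]
    exact Finset.sum_congr rfl fun l _ => by ring
  rw [h4, h5, hv, hw, mul_one, mul_zero, sub_zero]

open Module in
/-- The space of skew-symmetric matrices has full noncommutative rank. -/
theorem ncrank_skew (hn : 2 ≤ Fintype.card ι) (U : Submodule ℂ (ι → ℂ)) :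
    finrank ℂ U ≤ finrank ℂ (⨆ S ∈ {S : Matrix ι ι ℂ | S.transpose = -S},
      U.map S.mulVecLin : Submodule ℂ (ι → ℂ)) := by
  have hdim : finrank ℂ (ι → ℂ) = Fintype.card ι := Module.finrank_fintype_fun_eq_card ℂ
  -- the hyperplane orthogonal to a vector
  let φ : (ι → ℂ) → ((ι → ℂ) →ₗ[ℂ] ℂ) := fun u =>
    { toFun := fun w => u ⬝ᵥ w
      map_add' := fun a b => by rw [dotProduct_add]
      map_smul' := fun a b => by rw [dotProduct_smul]; rfl }
  have hφ : ∀ u, u ≠ 0 → finrank ℂ (LinearMap.ker (φ u)) + 1 = Fintype.card ι := by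
    intro u hu
    rw [← hdim]
    refine Module.Dual.finrank_ker_add_one_of_ne_zero (f := φ u) fun h => hu ?_
    funext i
    have h1 : φ u (Pi.single i 1) = 0 := by rw [h]; rfl
    have h2 : φ u (Pi.single i 1) = u i := by
      show u ⬝ᵥ Pi.single i 1 = u i
      rw [dotProduct_single, mul_one]
    rw [← h2, h1]
    rfl
  by_cases h0 : U = ⊥
  · rw [h0, finrank_bot]
    exact Nat.zero_le _
  obtain ⟨u, hu, hu0⟩ := (Submodule.ne_bot_iff _).1 h0
  by_cases h1 : U = ⊤
  · have h2 : (⨆ S ∈ {S : Matrix ι ι ℂ | S.transpose = -S},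
        U.map S.mulVecLin : Submodule ℂ (ι → ℂ)) = ⊤ := by
      rw [eq_top_iff]
      intro w _
      obtain ⟨v, hv, hv0⟩ : ∃ v ∈ LinearMap.ker (φ w), v ≠ 0 := by
        by_cases hw : w = 0
        · exact ⟨u, by rw [LinearMap.mem_ker, hw]; exact zero_dotProduct u, hu0⟩
        · have h3 := hφ w hw
          refine (Submodule.ne_bot_iff _).1 fun h4 => ?_
          rw [h4, finrank_bot] at h3
          omega
      refine mem_skew (u := v) (by rw [h1]; trivial) hv0 ?_
      rw [dotProduct_comm]
      exact hv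
    rw [h2]
    exact Submodule.finrank_mono le_top
  · have h2 : finrank ℂ U < Fintype.card ι := by
      rw [← hdim]
      exact Submodule.finrank_lt h1
    have h3 : LinearMap.ker (φ u) ≤ ⨆ S ∈ {S : Matrix ι ι ℂ | S.transpose = -S},
        U.map S.mulVecLin :=
      fun w hw => mem_skew hu hu0 hw
    have h4 := Submodule.finrank_mono h3
    have h5 := hφ u hu0
    omega

end Pool.Agent.L5helper60.MO
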