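import Pool.Agent.L5helper60.MO.Mai
import Pool.Agent.L5helper60.MO.Gen

set_option autoImplicit false

/-!
# The main theorem
-/

namespace Pool.Agent.L5helper60.MO

open Module
open Pool.Agent.Lib.CX (PT InP)
open Pool.Agent.L5helper60.SR (Inp dim mat pol det_eq_zero_iff)

lemma space_eq (L : Inp) : space L = Set.range fun z : Fin (nv L) → ℂ => Mx (cm L) z := by
  ext M
  constructor
  · rintro ⟨y, rfl⟩
    refine ⟨fun i => y i, ?_⟩
    beta_reduce
    rw [Mx, Finset.sum_range]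
    rfl
  · rintro ⟨z, rfl⟩
    refine ⟨fun i => if h : i < nv L then z ⟨i, h⟩ else 0, ?_⟩
    beta_reduce
    rw [Mx, Finset.sum_range]
    congr 1
    refine Finset.sum_congr rfl fun i _ => ?_
    rw [dif_pos (show (i : ℕ) < nv L from i.2)]
    rfl

lemma mod_of_modality {L : Inp} {c : ℕ} (h : Modality (space L) c) : Mod (cm L) c := by
  rw [space_eq] at h
  obtain ⟨K, hK, hM⟩ := h
  refine ⟨K, hK, fun y => ?_⟩
  obtain ⟨P, Q, s, hP, hQ, h1, h2⟩ := hM _ ⟨y, rfl⟩
  refine ⟨P, Q, s, hP, hQ, fun z => ?_, h2⟩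
  obtain ⟨z', hz'⟩ := h1 _ ⟨z, rfl⟩
  exact ⟨z', hz'.symm⟩

/-- the largest rank over the rational numbers is the largest rank over the complex numbers -/
lemma rank_complex {n k : ℕ} {A : Fin (k + 1) → Matrix (Fin n) (Fin n) ℚ} {r : ℕ}
    (h : ∀ y : Fin k → ℚ, (Mx A y).rank ≤ r) (z : Fin k → ℂ) : (Mx A z).rank ≤ r := by
  by_contra hy
  rw [not_le, ← Nat.succ_le_iff, le_rank_iff] at hy
  obtain ⟨g, g', hgh⟩ := hy
  apply hgh
  have h1 : ((Mx A (MvPolynomial.X : Fin k → MvPolynomial (Fin k) ℚ)).submatrix g g').det = 0 := by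
    apply MvPolynomial.funext
    intro y
    rw [map_zero, ← MvPolynomial.aeval_eq_eval, ← minor_eq, Mx_map]
    by_contra h2
    have h3 := (le_rank_iff _ _).2 ⟨g, g', h2⟩
    have h4 := h y
    omega
  rw [← Mx_map, minor_eq, h1, map_zero]

theorem main (c : ℕ) : ∃ (C : Inp → Prop) (sol : Inp → List ℕ), InP C ∧ PT sol ∧
    (∀ L, Modality (space L) c → C L) ∧ (InP fun L => C L ∧ (pol L).det = 0) ∧
    ∀ L, C L → (∀ v ∈ sol L, v ≤ dim L + L.length) ∧
      (∀ M ∈ space L, M.rank ≤ (SR.val L fun i => ((sol L).getD i 0 : ℕ)).rank) ∧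
      ((pol L).det = 0 ↔ (SR.val L fun i => ((sol L).getD i 0 : ℕ)).rank < dim L) := by
  refine ⟨fun L => flg c L = true, sol c, ⟨flg c, pt_flg c, fun L => Iff.rfl⟩, pt_sol c,
    fun L h => flg_of_mod (mod_of_modality h), ⟨alg c, pt_alg c, fun L => (alg_iff c L).symm⟩,
    fun L h => ⟨fun v hv => ?_, ?_, sol_singular h⟩⟩
  · have h1 := sol_le c L v hv
    have h2 := sol_length c L
    have h3 : 0 < (sol c L).length := List.length_pos_of_mem hv
    rw [nb] at h1
    rw [nv] at h1 h2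
    omega
  · rw [space_eq]
    rintro _ ⟨z, rfl⟩
    rw [val_eq]
    refine rank_complex (fun y => ?_) z
    have h1 := sol_max h fun i => if h : i < nv L then y ⟨i, h⟩ else 0
    rw [val_eq, val_eq] at h1
    have h2 : (fun i : Fin (nv L) => if h : (i : ℕ) < nv L then y ⟨i, h⟩ else 0) = y := by
      funext i
      rw [dif_pos i.2]
    rw [h2] at h1
    exact h1

end Pool.Agent.L5helper60.MO
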