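import Pool.Agent.L5helper60.MO.Cor

set_option autoImplicit false

/-!
# The algorithm finds the largest rank
-/

namespace Pool.Agent.L5helper60.MO

open Module Submodule Function
open Pool.Agent.Lib.CX Pool.Agent.Lib.helper22.CXDet
open Pool.Agent.Lib.Par (rk rk_eq pt_rk ls_opt)
open Pool.Agent.L5helper60.SR (Inp dim mat pol ent cden ient et ient_cast cden_ne mat_apply
  det_eq_zero_iff eval_det)

/-! ### The candidates -/

lemma mem_stp {L : Inp} {x y : List ℕ} :
    y ∈ stp L x ↔ y = x ∨ ∃ i < nv L, ∃ v ≤ nb L, x.set i v = y := by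
  simp only [stp, List.mem_cons, List.mem_flatMap, List.mem_map, List.mem_range,
    Nat.lt_succ_iff]

lemma cd_inv {L : Inp} (c : ℕ) : ∀ {x y : List ℕ}, y ∈ cd c L x →
    y.length = x.length ∧ ∀ v ∈ y, v ∈ x ∨ v ≤ nb L := by
  induction c with
  | zero =>
    intro x y h
    rw [cd, List.mem_singleton] at h
    subst h
    exact ⟨rfl, fun v hv => Or.inl hv⟩
  | succ c ih =>
    intro x y h
    rw [cd, List.mem_flatMap] at h
    obtain ⟨z, hz, hy⟩ := h
    obtain ⟨h1, h2⟩ := ih hz
    rw [mem_stp] at hy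
    rcases hy with rfl | ⟨i, hi, v, hv, rfl⟩
    · exact ⟨h1, h2⟩
    · refine ⟨by rw [List.length_set, h1], fun w hw => ?_⟩
      rcases List.mem_or_eq_of_mem_set hw with hw | rfl
      · exact h2 w hw
      · exact Or.inr hv

lemma cd_mem {L : Inp} (c : ℕ) : ∀ (J : Finset (Fin (nv L))) (f : Fin (nv L) → ℕ) (x : List ℕ),
    x.length = nv L → J.card ≤ c → (∀ i ∉ J, f i = x.getD i 0) → (∀ i ∈ J, f i ≤ nb L) →
    ∃ y ∈ cd c L x, y.length = nv L ∧ ∀ i : Fin (nv L), y.getD i 0 = f i := by
  classical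
  induction c with
  | zero =>
    intro J f x hx hJ h1 h2
    have hJ0 : J = ∅ := Finset.card_eq_zero.1 (by omega)
    subst hJ0
    exact ⟨x, by rw [cd, List.mem_singleton], hx, fun i => (h1 i (Finset.notMem_empty i)).symm⟩
  | succ c ih =>
    intro J f x hx hJ h1 h2
    rcases J.eq_empty_or_nonempty with rfl | ⟨j, hj⟩
    · obtain ⟨y, hy, h3⟩ := ih ∅ f x hx (by simp) h1 (by simp)
      refine ⟨y, ?_, h3⟩
      rw [cd, List.mem_flatMap]
      exact ⟨y, hy, mem_stp.2 (Or.inl rfl)⟩
    · obtain ⟨y, hy, h3, h4⟩ := ih (J.erase j) (update f j (x.getD j 0)) x hx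
        (by rw [Finset.card_erase_of_mem hj]; omega) (fun i hi => by
          by_cases h : i = j
          · subst h
            rw [update_self]
          · rw [update_of_ne h]
            exact h1 i fun h' => hi (Finset.mem_erase.2 ⟨h, h'⟩)) (fun i hi => by
          rw [Finset.mem_erase] at hi
          rw [update_of_ne hi.1]
          exact h2 i hi.2)
      refine ⟨y.set j (f j), ?_, by rw [List.length_set, h3], fun i => ?_⟩
      · rw [cd, List.mem_flatMap]
        exact ⟨y, hy, mem_stp.2 (Or.inr ⟨j, j.2, f j, h2 j hj, rfl⟩)⟩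
      · by_cases h : i = j
        · subst h
          rw [List.getD_eq_getElem _ _ (by rw [List.length_set, h3]; exact i.2),
            List.getElem_set_self]
        · have h5 := h4 i
          rw [update_of_ne h] at h5
          rw [← h5, List.getD_eq_getElem?_getD, List.getD_eq_getElem?_getD,
            List.getElem?_set_ne fun e => h (Fin.ext e.symm)]

/-! ### The matrix -/

lemma val_eq (L : Inp) (y : ℕ → ℚ) : SR.val L y = Mx (cm L) (fun i : Fin (nv L) => y i) := by
  rw [SR.val, Mx, Finset.sum_range]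
  have h1 : ∀ M : Matrix (Fin (dim L)) (Fin (dim L)) ℚ, M.map (algebraMap ℚ ℚ) = M := fun M => by
    ext
    rfl
  simp only [h1]
  rfl

lemma en_et (L : Inp) (x : List ℕ) (s t : Fin (dim L)) :
    (en (et L x) s t : ℚ) = ((cden L : ℚ) • SR.val L fun i => ((x.getD i 0 : ℕ) : ℚ)) s t := by
  rw [et, en_tb s.2 t.2, sum_range_map, SR.val, Matrix.smul_apply, Matrix.add_apply,
    Matrix.sum_apply, Finset.sum_range]
  push_cast
  rw [ient_cast, smul_eq_mul, mul_add, Finset.mul_sum, mat_apply]
  congr 1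
  apply Finset.sum_congr rfl
  intro i _
  rw [ient_cast, Matrix.smul_apply, mat_apply, smul_eq_mul]
  ring

lemma rnk_et (L : Inp) (x : List ℕ) : rnk (dim L) (et L x) =
    (Mx (cm L) fun i : Fin (nv L) => ((x.getD i 0 : ℕ) : ℚ)).rank := by
  rw [rnk_eq (en_et L x), SR.rank_smul' (cden_ne L), val_eq]

lemma ps_eq (L : Inp) (x : List ℕ) : ps L x + (dim L + 1) * finrank ℚ (Sol (cm L)) =
    (dim L + 1) * Fintype.card (Un (dim L) (nv L)) +
      ((dim L + 1) * finrank ℚ ((Sol (cm L)).map (dir fun i => ((x.getD i 0 : ℕ) : ℚ))) +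
        (Mx (cm L) fun i : Fin (nv L) => ((x.getD i 0 : ℕ) : ℚ)).rank) := by
  have h1 := congrArg (fun m => (dim L + 1) * m) (rk_gt L x)
  simp only [mul_add] at h1
  rw [ps, rnk_et]
  omega

lemma us_length (L : Inp) : (us L).length = Fintype.card (Un (dim L) (nv L)) := by
  simp [us, List.length_flatMap]

lemma ps_lt (L : Inp) (x : List ℕ) : ps L x < it L := by
  have h1 := rk_gt L x
  have h2 : finrank ℚ ((Sol (cm L)).map (dir fun i => ((x.getD i 0 : ℕ) : ℚ))) ≤
      finrank ℚ (Sol (cm L)) := finrank_map_le _ _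
  have h3 : rnk (dim L) (et L x) ≤ dim L := by
    rw [rnk_et]
    have := Matrix.rank_le_card_height
      (Mx (cm L) fun i : Fin (nv L) => ((x.getD i 0 : ℕ) : ℚ))
    rwa [Fintype.card_fin] at this
  rw [ps, it, us_length]
  have h4 : rk (gt L x) ≤ Fintype.card (Un (dim L) (nv L)) := by omega
  have h5 := Nat.mul_le_mul_left (dim L + 1) h4
  rw [mul_add]
  omega

/-! ### The local search -/

lemma sol_inv (c : ℕ) (L : Inp) (k : ℕ) :
    ∀ x, x = (fun x => ((cd (c + 1) L x).filter (ps L x < ps L ·)).headD x)^[k]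
        (List.replicate (nv L) 0) → x.length = nv L ∧ ∀ v ∈ x, v ≤ nb L := by
  induction k with
  | zero =>
    rintro _ rfl
    simp
  | succ k ih =>
    rintro _ rfl
    rw [iterate_succ_apply']
    obtain ⟨h1, h2⟩ := ih _ rfl
    generalize (fun x => ((cd (c + 1) L x).filter (ps L x < ps L ·)).headD x)^[k]
      (List.replicate (nv L) 0) = x at *
    rcases h : (cd (c + 1) L x).filter (ps L x < ps L ·) with _ | ⟨y, l⟩
    · exact ⟨h1, h2⟩
    have := (List.mem_filter.1 (h ▸ List.mem_cons_self : y ∈ _)).1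
    obtain ⟨h3, h4⟩ := cd_inv (c + 1) this
    refine ⟨h3.trans h1, fun v hv => ?_⟩
    rcases h4 v hv with h5 | h5
    · exact h2 v h5
    · exact h5

lemma sol_length (c : ℕ) (L : Inp) : (sol c L).length = nv L := (sol_inv c L _ _ rfl).1

lemma sol_le (c : ℕ) (L : Inp) : ∀ v ∈ sol c L, v ≤ nb L := (sol_inv c L _ _ rfl).2

attribute [local irreducible] ent cden dim ient et nv tb us ce cv gr gt rnk ps nb it stp in
theorem pt_sol (c : ℕ) : PT (sol c) := by
  have h0 : ∀ {α : Type} [Enc α] {L : α → Inp} {x : α → List ℕ}, PT L → PT x →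
    PT fun a => cd (c + 1) (L a) (x a) := pt_cd (c + 1)
  have h1 : PT fun p : Inp × List ℕ => cd (c + 1) p.1 p.2 :=
    h0 (by fun_prop) (by fun_prop)
  refine PT.iterate (B := fun L => nv L * (3 * nb L + 2 + 1) + 2)
    ?_ (by fun_prop) (by fun_prop) (by fun_prop) (by fun_prop) fun L k _ => by
      obtain ⟨h1, h2⟩ := sol_inv c L k _ rfl
      exact (size_list_le fun v hv => (size_nat_mono (h2 v hv)).trans
        (size_nat_le _)).trans_eq (by rw [h1])
  fun_prop

attribute [local irreducible] ent cden dim ient et nv tb us ce cv gr gt rnk ps nb it stp gr₀ gt₀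
  sol in
theorem pt_flg (c : ℕ) : PT (flg c) := by
  have h0 := pt_sol c
  unfold flg
  fun_prop

attribute [local irreducible] ent cden dim ient et nv tb us ce cv gr gt rnk ps nb it stp gr₀ gt₀
  sol flg in
theorem pt_alg (c : ℕ) : PT (alg c) := by
  have h0 := pt_sol c
  have h1 := pt_flg c
  unfold alg
  fun_prop

/-- the point found by the local search is a local optimum -/
theorem sol_opt (c : ℕ) (L : Inp) (J : Finset (Fin (nv L))) (hJ : J.card ≤ c + 1)
    (m : {j // j ∈ J} → ℕ) (hm : ∀ j, m j ≤ nb L) :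
    (dim L + 1) * finrank ℚ ((Sol (cm L)).map (dir
        (pt J (fun i : Fin (nv L) => (((sol c L).getD i 0 : ℕ) : ℚ)) fun j => (m j : ℚ)))) +
      (Mx (cm L) (pt J (fun i : Fin (nv L) => (((sol c L).getD i 0 : ℕ) : ℚ))
        fun j => (m j : ℚ))).rank ≤
    (dim L + 1) * finrank ℚ ((Sol (cm L)).map (dir
        (fun i : Fin (nv L) => (((sol c L).getD i 0 : ℕ) : ℚ)))) +
      (Mx (cm L) (fun i : Fin (nv L) => (((sol c L).getD i 0 : ℕ) : ℚ))).rank := by
  have o := ls_opt (cd (c + 1) L) (ps L) (List.replicate (nv L) 0) (K := it L) (ps_lt L)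
  change ∀ y ∈ cd (c + 1) L (sol c L), _ ≤ ps L (sol c L) at o
  obtain ⟨z, hz, -, hz2⟩ := cd_mem (c + 1) J
    (fun i => if h : i ∈ J then m ⟨i, h⟩ else (sol c L).getD i 0) (sol c L) (sol_length c L) hJ
    (fun i hi => by rw [dif_neg hi]) (fun i hi => by rw [dif_pos hi]; exact hm _)
  have h1 := o z hz
  have h2 := ps_eq L z
  have h3 := ps_eq L (sol c L)
  have h4 : (fun i : Fin (nv L) => ((z.getD i 0 : ℕ) : ℚ)) =
      pt J (fun i : Fin (nv L) => (((sol c L).getD i 0 : ℕ) : ℚ)) fun j => (m j : ℚ) := by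
    funext i
    rw [hz2, pt]
    by_cases h : i ∈ J
    · rw [dif_pos h, dif_pos h]
    · rw [dif_neg h, dif_neg h]
      rfl
  rw [h4] at h2
  omega

/-- the test of the codimension is correct -/
theorem flg_iff (c : ℕ) (L : Inp) : flg c L = true ↔ nv L ≤ finrank ℚ ((Sol (cm L)).map (dir
    (fun i : Fin (nv L) => (((sol c L).getD i 0 : ℕ) : ℚ)))) + c := by
  rw [flg, decide_eq_true_eq]
  have h1 := rk_gt₀ L
  have h2 := rk_gt L (sol c L)
  omega

/-- **Matrices of small modality pass the test.** -/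
theorem flg_of_mod {c : ℕ} {L : Inp} (h : Mod (cm L) c) : flg c L = true :=
  (flg_iff c L).2 (codim_of_mod h (D := nb L) (by rw [nb]) (sol_opt c L))

/-- **The local search finds the largest rank.** -/
theorem sol_max {c : ℕ} {L : Inp} (h : flg c L = true) (y : ℕ → ℚ) :
    (SR.val L y).rank ≤ (SR.val L fun i => (((sol c L).getD i 0 : ℕ) : ℚ)).rank := by
  rw [val_eq, val_eq]
  exact opt (D := nb L) (by rw [nb]) ((flg_iff c L).1 h) (sol_opt c L) fun i => y i

/-- **Singularity is decided at one point.** -/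
theorem sol_singular {c : ℕ} {L : Inp} (h : flg c L = true) : (pol L).det = 0 ↔
    (SR.val L fun i => (((sol c L).getD i 0 : ℕ) : ℚ)).rank < dim L := by
  constructor
  · intro h1
    rw [← det_eq_zero_iff, ← eval_det, h1, map_zero]
  · intro h1
    apply MvPolynomial.funext
    intro y
    rw [eval_det, map_zero, det_eq_zero_iff]
    exact (sol_max h y).trans_lt h1

/-- **The decision problem.** -/
theorem alg_iff (c : ℕ) (L : Inp) : alg c L = true ↔ flg c L = true ∧ (pol L).det = 0 := by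
  rw [alg, Bool.and_eq_true, decide_eq_true_eq]
  refine and_congr_right fun h => ?_
  rw [sol_singular h, rnk_et, val_eq]

end Pool.Agent.L5helper60.MO
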