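import Mathlib

/-!
# Derivations and ideals of minors
-/

set_option autoImplicit false

namespace Pool.Agent.L5helper60.MO

open Finset

variable {R : Type} [CommRing R] [Algebra ℚ R]

/-- the product rule -/
theorem der_prod {ι : Type} [DecidableEq ι] (D : Derivation ℚ R R) (s : Finset ι) (f : ι → R) :
    D (∏ i ∈ s, f i) = ∑ j ∈ s, ∏ i ∈ s, Function.update f j (D (f j)) i := by
  induction s using Finset.induction_on with
  | empty => simp
  | insert a s ha ih =>
    rw [prod_insert ha, D.leibniz, ih, sum_insert ha, prod_insert ha, Function.update_self,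
      smul_eq_mul, smul_eq_mul, mul_sum, add_comm]
    congr 1
    · rw [mul_comm]
      congr 1
      refine prod_congr rfl fun i hi => ?_
      rw [Function.update_of_ne]
      rintro rfl
      exact ha hi
    · refine sum_congr rfl fun j hj => ?_
      rw [prod_insert ha, Function.update_of_ne]
      rintro rfl
      exact ha hj

/-- the derivative of the determinant in the direction `X` -/
def dd {ρ : ℕ} (N X : Matrix (Fin ρ) (Fin ρ) R) : R := ∑ i, ∑ j, N.adjugate i j * X j i

omit [Algebra ℚ R] in
lemma dd_col {ρ : ℕ} (N X : Matrix (Fin ρ) (Fin ρ) R) :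
    dd N X = ∑ j, (N.updateCol j fun i => X i j).det := by
  refine sum_congr rfl fun j _ => ?_
  rw [← Matrix.cramer_apply, Matrix.cramer_eq_adjugate_mulVec]
  rfl

omit [Algebra ℚ R] in
lemma dd_row {ρ : ℕ} (N X : Matrix (Fin ρ) (Fin ρ) R) :
    dd N X = ∑ i, (N.updateRow i (X i)).det := by
  rw [dd, sum_comm]
  refine sum_congr rfl fun i _ => ?_
  rw [← Matrix.cramer_transpose_apply, Matrix.cramer_eq_adjugate_mulVec,
    ← Matrix.adjugate_transpose]
  rfl

omit [Algebra ℚ R] in
lemma dd_add {ρ : ℕ} (N X Y : Matrix (Fin ρ) (Fin ρ) R) : dd N (X + Y) = dd N X + dd N Y := by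
  simp only [dd, Matrix.add_apply, mul_add, sum_add_distrib]

/-- **The derivative of the determinant.** -/
theorem der_det {ρ : ℕ} (D : Derivation ℚ R R) (N : Matrix (Fin ρ) (Fin ρ) R) :
    D N.det = dd N (N.map D) := by
  rw [dd_col, Matrix.det_apply, map_sum]
  simp_rw [Matrix.det_apply]
  rw [sum_comm]
  refine sum_congr rfl fun σ _ => ?_
  have h1 : D (Equiv.Perm.sign σ • ∏ i, N (σ i) i) =
      Equiv.Perm.sign σ • D (∏ i, N (σ i) i) := by
    rcases Int.units_eq_one_or (Equiv.Perm.sign σ) with h | h <;> rw [h] <;> simp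
  rw [h1, der_prod, smul_sum]
  refine sum_congr rfl fun j _ => ?_
  congr 1
  refine prod_congr rfl fun i _ => ?_
  rw [Matrix.updateCol_apply]
  by_cases h : i = j
  · subst h
    rw [Function.update_self, if_pos rfl]
    rfl
  · rw [Function.update_of_ne h, if_neg h]

variable {n : ℕ}

/-- the ideal generated by the minors of order `ρ` -/
def mins (ρ : ℕ) (N : Matrix (Fin n) (Fin n) R) : Ideal R :=
  Ideal.span {f | ∃ r s : Fin ρ → Fin n, f = (N.submatrix r s).det}

omit [Algebra ℚ R] in
lemma dd_left {ρ : ℕ} (P N : Matrix (Fin n) (Fin n) R) (r s : Fin ρ → Fin n) :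
    dd (N.submatrix r s) ((P * N).submatrix r s) ∈ mins ρ N := by
  rw [dd_row]
  refine Ideal.sum_mem _ fun i _ => ?_
  have h1 : ((P * N).submatrix r s) i = ∑ u, P (r i) u • (fun j => N u (s j)) := by
    ext j
    rw [Finset.sum_apply]
    rfl
  rw [h1]
  have h2 := (Matrix.detRowAlternating (R := R) (n := Fin ρ)).map_update_sum
    univ i (fun u => P (r i) u • (fun j => N u (s j))) (N.submatrix r s)
  show Matrix.detRowAlternating (Function.update (N.submatrix r s) i _) ∈ _
  rw [h2]
  refine Ideal.sum_mem _ fun u _ => ?_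
  rw [AlternatingMap.map_update_smul, smul_eq_mul]
  refine Ideal.mul_mem_left _ _ (Ideal.subset_span ⟨Function.update r i u, s, ?_⟩)
  show Matrix.det _ = _
  congr 1
  ext a b
  by_cases h : a = i
  · subst h
    simp
  · simp [h]

omit [Algebra ℚ R] in
lemma dd_right {ρ : ℕ} (Q N : Matrix (Fin n) (Fin n) R) (r s : Fin ρ → Fin n) :
    dd (N.submatrix r s) ((N * Q).submatrix r s) ∈ mins ρ N := by
  have h1 := dd_left Q.transpose N.transpose s r
  have h2 : dd (N.transpose.submatrix s r) ((Q.transpose * N.transpose).submatrix s r) =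
      dd (N.submatrix r s) ((N * Q).submatrix r s) := by
    rw [← Matrix.transpose_mul]
    show dd (N.submatrix r s).transpose ((N * Q).submatrix r s).transpose = _
    rw [dd, dd, sum_comm]
    refine sum_congr rfl fun i _ => sum_congr rfl fun j _ => ?_
    rw [← Matrix.adjugate_transpose]
    rfl
  rw [h2] at h1
  refine (Ideal.span_mono ?_ : mins ρ N.transpose ≤ mins ρ N) h1
  rintro _ ⟨a, b, rfl⟩
  refine ⟨b, a, ?_⟩
  rw [← Matrix.det_transpose]
  rfl

/-- **Ideals of minors are stable.** -/
theorem der_mins {ρ : ℕ} (D : Derivation ℚ R R) {P Q N : Matrix (Fin n) (Fin n) R}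
    (h : N.map D = P * N + N * Q) {f : R} (hf : f ∈ mins ρ N) : D f ∈ mins ρ N := by
  refine Submodule.span_induction (p := fun f _ => D f ∈ mins ρ N) ?_ ?_ ?_ ?_ hf
  · rintro _ ⟨r, s, rfl⟩
    rw [der_det]
    have h1 : (N.submatrix r s).map D = (P * N).submatrix r s + (N * Q).submatrix r s := by
      rw [← Matrix.submatrix_map, h]
      rfl
    rw [h1, dd_add]
    exact Ideal.add_mem _ (dd_left P N r s) (dd_right Q N r s)
  · rw [map_zero]
    exact Ideal.zero_mem _
  · intro a b _ _ ha hb
    rw [map_add]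
    exact Ideal.add_mem _ ha hb
  · intro a b hb' hb
    rw [smul_eq_mul, D.leibniz, smul_eq_mul, smul_eq_mul]
    exact Ideal.add_mem _ (Ideal.mul_mem_left _ _ hb) (Ideal.mul_mem_right _ _ hb')

end Pool.Agent.L5helper60.MO
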