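import Pool.Agent.L5helper60.SR.Defs

set_option autoImplicit false

/-!
# Modality of spaces of matrices

Definitions only.
-/

namespace Pool.Agent.L5helper60.MO

open Pool.Agent.L5helper60.SR (Inp dim mat)

/-- The modality of a set `𝓜` of complex matrices is at most `c`: there is a countable subfield `K`
of the complex numbers such that for every `M` in `𝓜` there are invertible matrices `P`, `Q` with
`P N Q ∈ 𝓜` for all `N ∈ 𝓜` such that the entries of `P M Q` are algebraic over the field generated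
by `c` complex numbers over `K`. -/
def Modality {ι ι' : Type} [Fintype ι] [Fintype ι'] [DecidableEq ι] [DecidableEq ι']
    (𝓜 : Set (Matrix ι ι' ℂ)) (c : ℕ) : Prop :=
  ∃ K : Subfield ℂ, (K : Set ℂ).Countable ∧ ∀ M ∈ 𝓜,
    ∃ (P : Matrix ι ι ℂ) (Q : Matrix ι' ι' ℂ) (s : Fin c → ℂ), IsUnit P ∧ IsUnit Q ∧
      (∀ N ∈ 𝓜, P * N * Q ∈ 𝓜) ∧
      ∀ i j, IsAlgebraic (IntermediateField.adjoin K (Set.range s)) ((P * M * Q) i j)

/-- The set of the complex matrices `A₀ + y₀ A₁ + … + y_{k-1} A_k` for the list `L` of the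
coefficient matrices `A₀, A₁, …, A_k`. -/
def space (L : Inp) : Set (Matrix (Fin (dim L)) (Fin (dim L)) ℂ) :=
  Set.range fun y : ℕ → ℂ => (mat L 0).map (algebraMap ℚ ℂ) +
    ∑ i ∈ Finset.range (L.length - 1), y i • (mat L (i + 1)).map (algebraMap ℚ ℂ)

end Pool.Agent.L5helper60.MO
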