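import Mathlib

/-!
# Ranks and minors; values in general position
-/

set_option autoImplicit false

namespace Pool.Agent.L5helper60.MO

open Module

/-- independent members of a finite family -/
theorem exists_indep {K V ι : Type} [Field K] [AddCommGroup V] [Module K V] [Finite ι] (w : ι → V)
    {ρ : ℕ} (h : ρ ≤ finrank K (Submodule.span K (Set.range w))) :
    ∃ f : Fin ρ → ι, LinearIndependent K (w ∘ f) := by
  obtain ⟨κ, a, ha, hs, hl⟩ := exists_linearIndependent' K w
  have hκ : Finite κ := Finite.of_injective a ha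
  cases nonempty_fintype κ
  have hc : Fintype.card κ = finrank K (Submodule.span K (Set.range w)) := by
    rw [← hs]
    exact (finrank_span_eq_card hl).symm
  obtain ⟨g⟩ : Nonempty (Fin ρ ↪ κ) := by
    rw [Function.Embedding.nonempty_iff_card_le, Fintype.card_fin, hc]
    exact h
  exact ⟨a ∘ g, hl.comp g g.injective⟩

/-- **The rank is the largest order of a nonzero minor.** -/
theorem le_rank_iff {K a b : Type} [Field K] [Fintype a] [Fintype b] (N : Matrix a b K) (ρ : ℕ) :
    ρ ≤ N.rank ↔ ∃ (f : Fin ρ → a) (g : Fin ρ → b), (N.submatrix f g).det ≠ 0 := by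
  constructor
  · intro h
    rw [Matrix.rank_eq_finrank_span_cols] at h
    obtain ⟨g, hg⟩ := exists_indep N.col h
    have h1 : (N.submatrix id g).transpose.rank = ρ := by
      have := LinearIndependent.rank_matrix (M := (N.submatrix id g).transpose) hg
      rw [this, Fintype.card_fin]
    rw [Matrix.rank_transpose] at h1
    have h2 := h1.ge
    rw [Matrix.rank_eq_finrank_span_row] at h2
    obtain ⟨f, hf⟩ := exists_indep (N.submatrix id g).row h2
    refine ⟨f, g, ?_⟩
    have h3 : IsUnit (N.submatrix f g) := by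
      rw [← Matrix.linearIndependent_rows_iff_isUnit]
      exact hf
    rw [Matrix.isUnit_iff_isUnit_det] at h3
    exact h3.ne_zero
  · rintro ⟨f, g, h⟩
    have h1 := Matrix.rank_submatrix_le N f g
    have h2 := Matrix.rank_of_isUnit _ ((Matrix.isUnit_iff_isUnit_det _).2 (isUnit_iff_ne_zero.2 h))
    rw [Fintype.card_fin] at h2
    omega

/-! ### Values in general position -/

/-- the point with the coordinates `l` in `J` and the coordinates `x` elsewhere -/
def pt {k : ℕ} {R : Type} [CommRing R] [Algebra ℚ R] (J : Finset (Fin k)) (x : Fin k → ℚ)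
    (l : {j // j ∈ J} → R) : Fin k → R :=
  fun j => if h : j ∈ J then l ⟨j, h⟩ else algebraMap ℚ R (x j)

open MvPolynomial in
/-- A polynomial which vanishes at a point in general position vanishes at all points. -/
theorem special {k : ℕ} {J : Finset (Fin k)} {x : Fin k → ℚ} {l : {j // j ∈ J} → ℂ}
    (hl : AlgebraicIndependent ℚ l) {p : MvPolynomial (Fin k) ℚ} (hp : aeval (pt J x l) p = 0)
    {R : Type} [CommRing R] [Algebra ℚ R] (m : {j // j ∈ J} → R) : aeval (pt J x m) p = 0 := by
  let q : MvPolynomial {j // j ∈ J} ℚ :=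
    aeval (fun j => if h : j ∈ J then X ⟨j, h⟩ else C (x j)) p
  have h : ∀ {S : Type} [CommRing S] [Algebra ℚ S] (m : {j // j ∈ J} → S),
      aeval m q = aeval (pt J x m) p := by
    intro S _ _ m
    show aeval m (aeval _ p) = _
    rw [← AlgHom.comp_apply]
    congr 1
    ext j
    rw [AlgHom.comp_apply, aeval_X, aeval_X, pt]
    split_ifs with h
    · rw [aeval_X]
    · rw [← MvPolynomial.algebraMap_eq, AlgHom.commutes]
  have hq : q = 0 := by
    apply hl
    rw [h, hp, map_zero]
  rw [← h, hq, map_zero]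

open MvPolynomial in
/-- A polynomial which vanishes on a large grid vanishes at all points. -/
theorem grid {k D : ℕ} {J : Finset (Fin k)} {x : Fin k → ℚ} {p : MvPolynomial (Fin k) ℚ}
    (hd : ∀ i, p.degreeOf i ≤ D)
    (hp : ∀ m : {j // j ∈ J} → ℕ, (∀ j, m j ≤ D) → aeval (pt J x fun j => (m j : ℚ)) p = 0)
    {R : Type} [CommRing R] [Algebra ℚ R] (m : {j // j ∈ J} → R) : aeval (pt J x m) p = 0 := by
  classical
  let q : MvPolynomial {j // j ∈ J} ℚ :=
    aeval (fun j => if h : j ∈ J then X ⟨j, h⟩ else C (x j)) p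
  have h : ∀ {S : Type} [CommRing S] [Algebra ℚ S] (m : {j // j ∈ J} → S),
      aeval m q = aeval (pt J x m) p := by
    intro S _ _ m
    show aeval m (aeval _ p) = _
    rw [← AlgHom.comp_apply]
    congr 1
    ext j
    rw [AlgHom.comp_apply, aeval_X, aeval_X, pt]
    split_ifs with h
    · rw [aeval_X]
    · rw [← MvPolynomial.algebraMap_eq, AlgHom.commutes]
  have hq : q = 0 := by
    apply eq_zero_of_eval_zero_at_prod_finset q
      (fun _ => (Finset.range (D + 1)).image fun i : ℕ => (i : ℚ))
    · intro i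
      rw [Finset.card_image_of_injective _ Nat.cast_injective, Finset.card_range]
      refine Nat.lt_succ_of_le ?_
      show degreeOf i (aeval _ p) ≤ D
      rw [aeval_def, eval₂_eq]
      refine (degreeOf_sum_le _ _ _).trans (Finset.sup_le fun d hdp => ?_)
      refine (degreeOf_mul_le _ _ _).trans ?_
      rw [MvPolynomial.algebraMap_eq, degreeOf_C, zero_add]
      refine (degreeOf_prod_le _ _ _).trans ?_
      refine (Finset.sum_le_sum (g := fun j => if j = i.1 then d j else 0) fun j _ => ?_).trans ?_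
      · refine (degreeOf_pow_le _ _ _).trans ?_
        split_ifs with h1 h2 h2
        · subst h2
          rw [show (⟨i.1, h1⟩ : {j // j ∈ J}) = i from rfl, degreeOf_X_self, mul_one]
        · rw [degreeOf_X_of_ne (fun e => h2 (congrArg Subtype.val e).symm), mul_zero]
        · exact absurd (h2 ▸ i.2) h1
        · rw [degreeOf_C, mul_zero]
      · refine le_trans ?_ (hd i.1)
        by_cases hi : i.1 ∈ d.support
        · rw [Finset.sum_ite_eq' d.support i.1, if_pos hi]
          exact monomial_le_degreeOf i.1 hdp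
        · rw [Finset.sum_ite_eq' d.support i.1, if_neg hi]
          exact Nat.zero_le _
    · intro y hy
      choose m hm1 hm2 using fun j => Finset.mem_image.1 (hy j)
      have h1 : y = fun j => (m j : ℚ) := funext fun j => (hm2 j).symm
      have h2 := hp m fun j => by have := Finset.mem_range.1 (hm1 j); omega
      rw [← h, ← h1] at h2
      simpa using h2
  rw [← h, hq, map_zero]

lemma pt_self {k : ℕ} (J : Finset (Fin k)) (x : Fin k → ℚ) : pt J x (fun j => x j) = x := by
  funext j
  rw [pt]
  split_ifs <;> rfl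

open MvPolynomial in
lemma minor_eq {k ρ : ℕ} {a b S : Type} [CommRing S] [Algebra ℚ S]
    (N : Matrix a b (MvPolynomial (Fin k) ℚ)) (z : Fin k → S) (f : Fin ρ → a) (g : Fin ρ → b) :
    ((N.map (aeval z)).submatrix f g).det = aeval z (N.submatrix f g).det := by
  rw [AlgHom.map_det]
  rfl

open MvPolynomial in
/-- The rank is largest at points in general position. -/
theorem rank_special {k : ℕ} {a b : Type} [Fintype a] [Fintype b] {J : Finset (Fin k)}
    {x : Fin k → ℚ} {l : {j // j ∈ J} → ℂ} (hl : AlgebraicIndependent ℚ l)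
    (N : Matrix a b (MvPolynomial (Fin k) ℚ)) :
    (N.map (aeval x)).rank ≤ (N.map (aeval (pt J x l))).rank := by
  rw [le_rank_iff]
  obtain ⟨f, g, h⟩ := (le_rank_iff (N.map (aeval x)) _).1 le_rfl
  refine ⟨f, g, fun h0 => h ?_⟩
  rw [minor_eq] at h0 ⊢
  have := special hl h0 (fun j => x j)
  rwa [pt_self] at this

open MvPolynomial in
lemma degreeOf_det_le {k ρ : ℕ} (N : Matrix (Fin ρ) (Fin ρ) (MvPolynomial (Fin k) ℚ))
    (hN : ∀ s t i, (N s t).degreeOf i ≤ 1) (i : Fin k) : N.det.degreeOf i ≤ ρ := by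
  rw [Matrix.det_apply]
  refine (degreeOf_sum_le _ _ _).trans (Finset.sup_le fun σ _ => ?_)
  have h1 : (∏ j, N (σ j) j).degreeOf i ≤ ρ := by
    refine (degreeOf_prod_le _ _ _).trans ?_
    refine (Finset.sum_le_sum fun j _ => hN (σ j) j i).trans ?_
    simp
  rcases Int.units_eq_one_or (Equiv.Perm.sign σ) with h | h <;> rw [h]
  · simpa using h1
  · simpa [degreeOf_neg] using h1

open MvPolynomial in
/-- The rank is not larger at points in general position than on a large grid. -/
theorem rank_grid {k : ℕ} {a b : Type} [Fintype a] [Fintype b] {J : Finset (Fin k)}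
    {x : Fin k → ℚ} {D ρ : ℕ} {N : Matrix a b (MvPolynomial (Fin k) ℚ)}
    (hN : ∀ s t i, (N s t).degreeOf i ≤ 1) (hD : ρ + 1 ≤ D)
    (h : ∀ m : {j // j ∈ J} → ℕ, (∀ j, m j ≤ D) →
      (N.map (aeval (pt J x fun j => (m j : ℚ)))).rank ≤ ρ) (l : {j // j ∈ J} → ℂ) :
    (N.map (aeval (pt J x l))).rank ≤ ρ := by
  by_contra h0
  rw [not_le, ← Nat.succ_le_iff, le_rank_iff] at h0
  obtain ⟨f, g, h1⟩ := h0
  apply h1
  rw [minor_eq]
  refine grid (D := D) (fun i => (degreeOf_det_le (N.submatrix f g)
    (fun s t => hN (f s) (g t)) i).trans hD) (fun m hm => ?_) l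
  rw [← minor_eq]
  by_contra h2
  have h3 := (le_rank_iff _ _).2 ⟨f, g, h2⟩
  have h4 := h m hm
  omega

open MvPolynomial in
/-- Two ranks which are both large at points in general position are both large at a point of a
large grid. -/
theorem rank_grid₂ {k : ℕ} {a b a' b' : Type} [Fintype a] [Fintype b] [Fintype a'] [Fintype b']
    {J : Finset (Fin k)} {x : Fin k → ℚ} {D ρ ρ' : ℕ} {N : Matrix a b (MvPolynomial (Fin k) ℚ)}
    {N' : Matrix a' b' (MvPolynomial (Fin k) ℚ)}
    (hN : ∀ s t i, (N s t).degreeOf i ≤ 1) (hN' : ∀ s t i, (N' s t).degreeOf i ≤ 1)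
    (hD : ρ' + (ρ + 1) ≤ D) (hx : ρ' ≤ (N'.map (aeval x)).rank)
    (h : ∀ m : {j // j ∈ J} → ℕ, (∀ j, m j ≤ D) →
      ρ' ≤ (N'.map (aeval (pt J x fun j => (m j : ℚ)))).rank →
      (N.map (aeval (pt J x fun j => (m j : ℚ)))).rank ≤ ρ) {l : {j // j ∈ J} → ℂ}
    (hl : AlgebraicIndependent ℚ l) : (N.map (aeval (pt J x l))).rank ≤ ρ := by
  by_contra h0
  rw [not_le, ← Nat.succ_le_iff, le_rank_iff] at h0
  obtain ⟨f, g, h1⟩ := h0
  obtain ⟨f', g', h1'⟩ := (le_rank_iff _ _).1 hx
  rw [minor_eq] at h1 h1'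
  have h2 : aeval (pt J x l) (N'.submatrix f' g').det ≠ 0 := by
    intro h3
    have := special hl h3 (fun j => x j)
    rw [pt_self] at this
    exact h1' this
  have h3 : aeval (pt J x l) ((N'.submatrix f' g').det * (N.submatrix f g).det) = 0 := by
    refine grid (D := D) (fun i => ?_) (fun m hm => ?_) l
    · refine (degreeOf_mul_le _ _ _).trans (le_trans (add_le_add
        (degreeOf_det_le _ (fun s t => hN' (f' s) (g' t)) i)
        (degreeOf_det_le _ (fun s t => hN (f s) (g t)) i)) ?_)
      exact hD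
    · rw [map_mul]
      by_contra h4
      obtain ⟨h5, h6⟩ := mul_ne_zero_iff.1 h4
      rw [← minor_eq] at h5 h6
      have h7 := h m hm ((le_rank_iff _ _).2 ⟨f', g', h5⟩)
      have h8 := (le_rank_iff _ _).2 ⟨f, g, h6⟩
      omega
  rw [map_mul] at h3
  rcases mul_eq_zero.1 h3 with h4 | h4
  · exact h2 h4
  · exact h1 h4

end Pool.Agent.L5helper60.MO
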