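import Pool.Agent.L5helper60.MO.Defs
import Pool.Agent.L5helper60.MO.Min

/-!
# Infinitesimal symmetries
-/

set_option autoImplicit false

namespace Pool.Agent.L5helper60.MO

open Module

/-- the unknowns: the entries of `P`, `Q` and of the matrix of the affine vector field -/
abbrev Un (n k : ℕ) := (Fin n × Fin n) ⊕ (Fin n × Fin n) ⊕ (Fin k × Fin (k + 1))

variable {R : Type} [CommRing R] [Algebra ℚ R] {n k : ℕ}

/-- the matrix `P` -/
def Pm (w : Un n k → R) : Matrix (Fin n) (Fin n) R := Matrix.of fun s u => w (Sum.inl (s, u))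
/-- the matrix `Q` -/
def Qm (w : Un n k → R) : Matrix (Fin n) (Fin n) R := Matrix.of fun s u => w (Sum.inr (Sum.inl (s, u)))
/-- the matrix of the vector field -/
def Cm (w : Un n k → R) (i : Fin k) (l : Fin (k + 1)) : R := w (Sum.inr (Sum.inr (i, l)))

/-- the equations of the infinitesimal symmetries -/
def eqn (A : Fin (k + 1) → Matrix (Fin n) (Fin n) ℚ) :
    (Un n k → R) →ₗ[R] (Fin (k + 1) → Matrix (Fin n) (Fin n) R) where
  toFun w l := Pm w * (A l).map (algebraMap ℚ R) + (A l).map (algebraMap ℚ R) * Qm w -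
    ∑ i, Cm w i l • (A i.succ).map (algebraMap ℚ R)
  map_add' w w' := by
    funext l
    have h1 : Pm (w + w') = Pm w + Pm w' := rfl
    have h2 : Qm (w + w') = Qm w + Qm w' := rfl
    have h3 : ∀ i, Cm (w + w') i l = Cm w i l + Cm w' i l := fun _ => rfl
    simp only [h1, h2, h3, Pi.add_apply, add_mul, mul_add, add_smul, Finset.sum_add_distrib]
    abel
  map_smul' c w := by
    funext l
    have h1 : Pm (c • w) = c • Pm w := rfl
    have h2 : Qm (c • w) = c • Qm w := rfl
    have h3 : ∀ i, Cm (c • w) i l = c * Cm w i l := fun _ => rfl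
    simp only [h1, h2, h3, Pi.smul_apply, RingHom.id_apply, smul_sub, smul_add, Finset.smul_sum,
      smul_smul, Matrix.smul_mul, Matrix.mul_smul]

/-- the vector of the vector field at a point -/
def dir (x : Fin k → R) : (Un n k → R) →ₗ[R] (Fin k → R) where
  toFun w i := Cm w i 0 + ∑ j, Cm w i j.succ * x j
  map_add' w w' := by
    funext i
    have h3 : ∀ l, Cm (w + w') i l = Cm w i l + Cm w' i l := fun _ => rfl
    simp only [h3, Pi.add_apply, add_mul, Finset.sum_add_distrib]
    abel
  map_smul' c w := by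
    funext i
    have h3 : ∀ l, Cm (c • w) i l = c * Cm w i l := fun _ => rfl
    simp only [h3, Pi.smul_apply, RingHom.id_apply, smul_eq_mul, mul_add, Finset.mul_sum, mul_assoc]

lemma eqn_apply (A : Fin (k + 1) → Matrix (Fin n) (Fin n) ℚ) (w : Un n k → R) (l : Fin (k + 1))
    (s t : Fin n) : eqn A w l s t = ∑ u, w (Sum.inl (s, u)) * algebraMap ℚ R (A l u t) +
      ∑ u, algebraMap ℚ R (A l s u) * w (Sum.inr (Sum.inl (u, t))) -
      ∑ i, w (Sum.inr (Sum.inr (i, l))) * algebraMap ℚ R (A i.succ s t) := by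
  simp only [eqn, LinearMap.coe_mk, AddHom.coe_mk, Matrix.sub_apply, Matrix.add_apply,
    Matrix.sum_apply, Matrix.mul_apply]
  rfl

/-- the derivative of the matrix in the direction of an infinitesimal symmetry -/
lemma eqn_Mx (A : Fin (k + 1) → Matrix (Fin n) (Fin n) ℚ) {w : Un n k → R} (hw : eqn A w = 0)
    (z : Fin k → R) : Pm w * Mx A z + Mx A z * Qm w =
      ∑ i, dir z w i • (A i.succ).map (algebraMap ℚ R) := by
  have h1 : ∀ l, Pm w * (A l).map (algebraMap ℚ R) + (A l).map (algebraMap ℚ R) * Qm w =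
      ∑ i, Cm w i l • (A i.succ).map (algebraMap ℚ R) := by
    intro l
    have h2 := congrFun hw l
    exact sub_eq_zero.1 h2
  have h2 : Pm w * Mx A z + Mx A z * Qm w = (Pm w * (A 0).map (algebraMap ℚ R) +
      (A 0).map (algebraMap ℚ R) * Qm w) + ∑ j : Fin k, z j • (Pm w *
      (A j.succ).map (algebraMap ℚ R) + (A j.succ).map (algebraMap ℚ R) * Qm w) := by
    simp only [Mx, mul_add, add_mul, Matrix.mul_sum, Matrix.sum_mul, Matrix.mul_smul,
      Matrix.smul_mul, smul_add, Finset.sum_add_distrib]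
    abel
  rw [h2]
  simp only [h1]
  have h3 : ∀ i, dir z w i = Cm w i 0 + ∑ j, Cm w i j.succ * z j := fun _ => rfl
  simp only [h3, add_smul, Finset.sum_add_distrib, Finset.smul_sum, smul_smul, Finset.sum_smul]
  congr 1
  rw [Finset.sum_comm]
  refine Finset.sum_congr rfl fun i _ => Finset.sum_congr rfl fun j _ => ?_
  rw [mul_comm]

/-- the rational infinitesimal symmetries -/
def Sol (A : Fin (k + 1) → Matrix (Fin n) (Fin n) ℚ) : Submodule ℚ (Un n k → ℚ) :=
  LinearMap.ker (eqn (R := ℚ) A)

/-- a basis of the rational infinitesimal symmetries -/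
noncomputable def sb (A : Fin (k + 1) → Matrix (Fin n) (Fin n) ℚ) :
    Basis (Fin (finrank ℚ (Sol A))) ℚ (Sol A) := Module.finBasis ℚ (Sol A)

/-- **Complex infinitesimal symmetries are combinations of rational ones.** -/
theorem base_change (A : Fin (k + 1) → Matrix (Fin n) (Fin n) ℚ) (w : Un n k → ℂ)
    (hw : eqn A w = 0) : ∃ a : Fin (finrank ℚ (Sol A)) → ℂ,
      ∀ u, w u = ∑ l, a l * (((sb A l : Un n k → ℚ) u : ℚ) : ℂ) := by
  classical
  let β := Basis.ofVectorSpace ℚ ℂ
  -- the coordinates are rational infinitesimal symmetries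
  have h1 : ∀ f : ℂ →ₗ[ℚ] ℚ, (fun u => f (w u)) ∈ Sol A := by
    intro f
    have h2 : ∀ (z : ℂ) (q : ℚ), f (z * algebraMap ℚ ℂ q) = f z * q := by
      intro z q
      rw [mul_comm, ← Algebra.smul_def, map_smul, smul_eq_mul, mul_comm]
    have h3 : ∀ (z : ℂ) (q : ℚ), f (algebraMap ℚ ℂ q * z) = q * f z := by
      intro z q
      rw [← Algebra.smul_def, map_smul, smul_eq_mul]
    rw [Sol, LinearMap.mem_ker]
    funext l
    ext s t
    have h4 : eqn A w l s t = 0 := by rw [hw]; rfl
    have h5 := congrArg f h4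
    rw [eqn_apply, map_zero, map_sub, map_add, map_sum, map_sum, map_sum] at h5
    simp only [h2, h3] at h5
    rw [eqn_apply]
    exact h5
  choose c hc using fun b => (Submodule.mem_span_range_iff_exists_fun ℚ).1
    ((sb A).mem_span ⟨_, h1 (β.coord b)⟩)
  let s : Finset _ := Finset.univ.biUnion fun u => (β.repr (w u)).support
  refine ⟨fun l => ∑ b ∈ s, (c b l : ℂ) * β b, fun u => ?_⟩
  have h2 : w u = ∑ b ∈ s, (((β.repr (w u)) b : ℚ) : ℂ) * β b := by
    have h3 := β.linearCombination_repr (w u)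
    rw [Finsupp.linearCombination_apply, Finsupp.sum_of_support_subset (s := s)] at h3
    · rw [← h3]
      refine Finset.sum_congr rfl fun b _ => ?_
      rw [h3, Algebra.smul_def]
      rfl
    · exact Finset.subset_biUnion_of_mem (fun u => (β.repr (w u)).support) (Finset.mem_univ u)
    · intro i _
      rw [zero_smul]
  rw [h2]
  simp only [Finset.sum_mul]
  rw [Finset.sum_comm]
  refine Finset.sum_congr rfl fun b _ => ?_
  have h3 : β.repr (w u) b = ∑ l, c b l * (sb A l : Un n k → ℚ) u := by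
    have h4 := congrArg (fun v : Sol A => (v : Un n k → ℚ) u) (hc b)
    simp only [Submodule.coe_sum, Submodule.coe_smul, Finset.sum_apply, Pi.smul_apply,
      smul_eq_mul] at h4
    rw [h4]
    rfl
  rw [h3]
  push_cast
  rw [Finset.sum_mul]
  refine Finset.sum_congr rfl fun l _ => ?_
  ring

end Pool.Agent.L5helper60.MO
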