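import Pool.Agent.L5helper60.MO.Sym
import Pool.Agent.L5helper60.MO.Rnk
import Pool.Agent.L5helper60.MO.Der

/-!
# Tangent vectors at points in general position
-/

set_option autoImplicit false

namespace Pool.Agent.L5helper60.MO

open Cardinal

/-- Elements in general position over a countable field. -/
theorem exists_generic (K : Subfield ℂ) (hK : (K : Set ℂ).Countable) (ι : Type) [Finite ι] :
    ∃ l : ι → ℂ, AlgebraicIndependent K l := by
  obtain ⟨s, hs⟩ := exists_isTranscendenceBasis K ℂ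
  have h1 := IsAlgClosed.cardinal_le_max_transcendence_basis' (fun i : s => (i : ℂ)) hs
  have hK' : #K ≤ ℵ₀ := Cardinal.mk_le_aleph0_iff.2 hK.to_subtype
  have hinf : Infinite s := by
    by_contra h
    rw [not_infinite_iff_finite] at h
    have h2 : #s ≤ ℵ₀ := (Cardinal.mk_lt_aleph0_iff.2 h).le
    have h3 : #ℂ ≤ ℵ₀ := h1.trans (max_le (max_le hK' h2) le_rfl)
    rw [Cardinal.mk_complex] at h3
    exact absurd Cardinal.aleph0_lt_continuum (not_lt.2 h3)
  cases nonempty_fintype ι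
  obtain ⟨t, ht⟩ := Infinite.exists_subset_card_eq s (Fintype.card ι)
  have e : ι ≃ t := Fintype.equivOfCardEq (by simp [ht])
  exact ⟨_, hs.1.comp (fun i => (e i).1) fun a b h => e.injective (Subtype.ext h)⟩

open scoped IntermediateField.algebraAdjoinAdjoin in
/-- One of `c + 1` algebraically independent elements is transcendental over a field generated by
`c` elements. -/
theorem exists_transcendental {K : Subfield ℂ} {ι : Type} [Fintype ι] {c : ℕ}
    (hι : Fintype.card ι = c + 1) {l : ι → ℂ} (hl : AlgebraicIndependent K l) (s : Fin c → ℂ) :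
    ∃ i, Transcendental (IntermediateField.adjoin K (Set.range s)) (l i) := by
  by_contra h
  push Not at h
  have h1 : Set.range l ⊆ (AlgebraicIndependent.matroid K ℂ).closure (Set.range s) := by
    rintro _ ⟨i, rfl⟩
    rw [AlgebraicIndependent.matroid_closure_eq]
    have h2 := h i
    rw [Transcendental, not_not, ← IsFractionRing.isAlgebraic_iff
      (Algebra.adjoin K (Set.range s)) (IntermediateField.adjoin K (Set.range s)) ℂ] at h2
    exact h2
  have h2 : (AlgebraicIndependent.matroid K ℂ).Indep (Set.range l) := hl.coe_range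
  have h3 := h2.encard_le_eRk_of_subset h1
  rw [Matroid.eRk_closure_eq] at h3
  have h4 := h3.trans (Matroid.eRk_le_encard _ _)
  have h5 : (Set.range l).encard = c + 1 := by
    rw [← Set.image_univ, hl.injective.encard_image, Set.encard_univ, ENat.card_eq_coe_fintype_card,
      hι]
    rfl
  have h6 : (Set.range s).encard ≤ c := by
    rw [← Set.image_univ]
    refine (Set.encard_image_le _ _).trans ?_
    rw [Set.encard_univ, ENat.card_eq_coe_fintype_card, Fintype.card_fin]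
  rw [h5] at h4
  have h7 := h4.trans h6
  norm_cast at h7
  omega

variable {n k : ℕ}

lemma Mx_zero (A : Fin (k + 1) → Matrix (Fin n) (Fin n) ℚ) :
    Mx A (0 : Fin k → ℂ) = (A 0).map (algebraMap ℚ ℂ) := by
  simp [Mx]

lemma Mx_single (A : Fin (k + 1) → Matrix (Fin n) (Fin n) ℚ) (j : Fin k) :
    Mx A (Pi.single j (1 : ℂ)) = (A 0).map (algebraMap ℚ ℂ) +
      (A j.succ).map (algebraMap ℚ ℂ) := by
  rw [Mx, Finset.sum_eq_single j]
  · simp
  · intro i _ hi
    rw [Pi.single_eq_of_ne hi, zero_smul]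
  · simp

lemma map_mul_der {m : ℕ} (δ : Derivation ℚ ℂ ℂ) (M N : Matrix (Fin m) (Fin m) ℂ) :
    (M * N).map δ = M.map δ * N + M * N.map δ := by
  ext i j
  simp only [Matrix.map_apply, Matrix.mul_apply, Matrix.add_apply, map_sum, Derivation.leibniz,
    smul_eq_mul, Finset.sum_add_distrib]
  rw [add_comm]
  congr 1
  refine Finset.sum_congr rfl fun u _ => mul_comm _ _

lemma map_rat_der {m : ℕ} (δ : Derivation ℚ ℂ ℂ) (M : Matrix (Fin m) (Fin m) ℚ) :
    (M.map (algebraMap ℚ ℂ)).map δ = 0 := by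
  ext i j
  rw [Matrix.map_apply, Matrix.map_apply, Derivation.map_algebraMap]
  rfl

/-- the space of the directions -/
def VS (A : Fin (k + 1) → Matrix (Fin n) (Fin n) ℚ) : Submodule ℂ (Matrix (Fin n) (Fin n) ℂ) :=
  Submodule.span ℂ (Set.range fun i : Fin k => (A i.succ).map (algebraMap ℚ ℂ))

lemma mem_VS {A : Fin (k + 1) → Matrix (Fin n) (Fin n) ℚ} {N : Matrix (Fin n) (Fin n) ℂ} :
    N ∈ VS A ↔ ∃ g : Fin k → ℂ, ∑ i, g i • (A i.succ).map (algebraMap ℚ ℂ) = N := by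
  rw [VS, Submodule.mem_span_range_iff_exists_fun]

lemma VS_symm {A : Fin (k + 1) → Matrix (Fin n) (Fin n) ℚ} {P Q : Matrix (Fin n) (Fin n) ℂ}
    (h : ∀ z : Fin k → ℂ, ∃ z', P * Mx A z * Q = Mx A z') :
    P * (A 0).map (algebraMap ℚ ℂ) * Q - (A 0).map (algebraMap ℚ ℂ) ∈ VS A ∧
    ∀ N ∈ VS A, P * N * Q ∈ VS A := by
  obtain ⟨b, hb⟩ := h 0
  rw [Mx_zero] at hb
  refine ⟨?_, ?_⟩
  · rw [hb, mem_VS]
    exact ⟨b, by rw [Mx]; abel⟩
  · have h1 : ∀ j : Fin k, P * (A j.succ).map (algebraMap ℚ ℂ) * Q ∈ VS A := by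
      intro j
      obtain ⟨g, hg⟩ := h (Pi.single j 1)
      rw [Mx_single, mul_add, add_mul, hb, Mx, Mx] at hg
      rw [mem_VS]
      refine ⟨g - b, ?_⟩
      have h2 : P * (A j.succ).map (algebraMap ℚ ℂ) * Q =
          (A 0).map (algebraMap ℚ ℂ) + ∑ i, b i • (A i.succ).map (algebraMap ℚ ℂ) +
          P * (A j.succ).map (algebraMap ℚ ℂ) * Q - ((A 0).map (algebraMap ℚ ℂ) +
          ∑ i, b i • (A i.succ).map (algebraMap ℚ ℂ)) := by abel
      rw [h2, hg]
      simp only [Pi.sub_apply, sub_smul, Finset.sum_sub_distrib]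
      abel
    intro N hN
    obtain ⟨g, rfl⟩ := mem_VS.1 hN
    rw [Matrix.mul_sum, Matrix.sum_mul]
    refine (VS A).sum_mem fun i _ => ?_
    rw [Matrix.mul_smul, Matrix.smul_mul]
    exact (VS A).smul_mem _ (h1 i)

/-- the substitution `N ↦ P N Q` -/
def conj {P P' Q Q' : Matrix (Fin n) (Fin n) ℂ} (hP1 : P * P' = 1) (hP2 : P' * P = 1)
    (hQ1 : Q * Q' = 1) (hQ2 : Q' * Q = 1) :
    Matrix (Fin n) (Fin n) ℂ ≃ₗ[ℂ] Matrix (Fin n) (Fin n) ℂ where
  toFun N := P * N * Q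
  invFun N := P' * N * Q'
  map_add' M N := by rw [mul_add, add_mul]
  map_smul' a N := by rw [Matrix.mul_smul, Matrix.smul_mul]; rfl
  left_inv N := by
    have : P' * (P * N * Q) * Q' = (P' * P) * N * (Q * Q') := by simp only [Matrix.mul_assoc]
    beta_reduce
    rw [this, hP2, hQ1, Matrix.one_mul, Matrix.mul_one]
  right_inv N := by
    have : P * (P' * N * Q') * Q = (P * P') * N * (Q' * Q) := by simp only [Matrix.mul_assoc]
    beta_reduce
    rw [this, hP1, hQ2, Matrix.one_mul, Matrix.mul_one]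

lemma VS_inv {A : Fin (k + 1) → Matrix (Fin n) (Fin n) ℚ}
    {P P' Q Q' : Matrix (Fin n) (Fin n) ℂ} (hP1 : P * P' = 1) (hP2 : P' * P = 1)
    (hQ1 : Q * Q' = 1) (hQ2 : Q' * Q = 1) (h : ∀ N ∈ VS A, P * N * Q ∈ VS A)
    {N : Matrix (Fin n) (Fin n) ℂ} (hN : N ∈ VS A) : P' * N * Q' ∈ VS A := by
  have h1 : (VS A).map (conj hP1 hP2 hQ1 hQ2).toLinearMap ≤ VS A := by
    rintro _ ⟨M, hM, rfl⟩
    exact h M hM
  have h2 := Submodule.eq_of_le_of_finrank_eq h1
    (LinearEquiv.finrank_map_eq (conj hP1 hP2 hQ1 hQ2) (VS A))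
  rw [← h2] at hN
  obtain ⟨M, hM, rfl⟩ := hN
  have h3 := (conj hP1 hP2 hQ1 hQ2).symm_apply_apply M
  change P' * (P * M * Q) * Q' = M at h3
  show P' * (P * M * Q) * Q' ∈ VS A
  rw [h3]
  exact hM

lemma VS_der {A : Fin (k + 1) → Matrix (Fin n) (Fin n) ℚ} (δ : Derivation ℚ ℂ ℂ)
    (g : Fin k → ℂ) : (∑ i, g i • (A i.succ).map (algebraMap ℚ ℂ)).map δ =
      ∑ i, δ (g i) • (A i.succ).map (algebraMap ℚ ℂ) := by
  ext a b
  simp only [Matrix.map_apply, Matrix.sum_apply, Matrix.smul_apply, smul_eq_mul, map_sum,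
    Derivation.leibniz, Derivation.map_algebraMap, mul_zero, zero_add]
  refine Finset.sum_congr rfl fun i _ => mul_comm _ _

/-- **A tangent vector of an orbit in the directions of `c + 1` generic coordinates.** -/
theorem tangent (A : Fin (k + 1) → Matrix (Fin n) (Fin n) ℚ) {c : ℕ} {K : Subfield ℂ}
    {J : Finset (Fin k)} (hJ : J.card = c + 1) {l : {j // j ∈ J} → ℂ}
    (hl : AlgebraicIndependent K l) (x : Fin k → ℚ)
    (hM : ∃ (P Q : Matrix (Fin n) (Fin n) ℂ) (s : Fin c → ℂ), IsUnit P ∧ IsUnit Q ∧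
      (∀ z : Fin k → ℂ, ∃ z', P * Mx A z * Q = Mx A z') ∧
      ∀ i j, IsAlgebraic (IntermediateField.adjoin K (Set.range s))
        ((P * Mx A (pt J x l) * Q) i j)) :
    ∃ w : Un n k → ℂ, eqn A w = 0 ∧ (∀ i ∉ J, dir (pt J x l) w i = 0) ∧
      dir (pt J x l) w ≠ 0 := by
  obtain ⟨P, Q, s, hP, hQ, h, halg⟩ := hM
  obtain ⟨P', hP1, hP2⟩ := isUnit_iff_exists.1 hP
  obtain ⟨Q', hQ1, hQ2⟩ := isUnit_iff_exists.1 hQ
  obtain ⟨i₀, hi₀⟩ := exists_transcendental (by rw [Fintype.card_coe, hJ]) hl s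
  obtain ⟨δ₀, hδ₀⟩ := exists_der (F := IntermediateField.adjoin K (Set.range s)) (T := ℂ)
    (w := fun _ : Unit => l i₀) (algebraicIndependent_unique_type_iff.2 hi₀) ()
  have h1 : δ₀ (l i₀) = 1 := by simpa using hδ₀ ()
  have h2 : ∀ i j, δ₀ ((P * Mx A (pt J x l) * Q) i j) = 0 :=
    fun i j => der_algebraic δ₀ (halg i j)
  obtain ⟨δ, hδ⟩ : ∃ δ : Derivation ℚ ℂ ℂ, ∀ a, δ a = δ₀ a :=
    ⟨δ₀.restrictScalars ℚ, fun _ => rfl⟩
  simp only [← hδ] at h1 h2
  clear hδ₀ halg hδ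
  obtain ⟨hV0, hV⟩ := VS_symm h
  have hadd : ∀ M N : Matrix (Fin n) (Fin n) ℂ, (M + N).map δ = M.map δ + N.map δ := by
    intro M N
    ext a b
    simp
  -- the infinitesimal symmetry
  have key : ∀ l : Fin (k + 1), ∃ g : Fin k → ℂ,
      ∑ i, g i • (A i.succ).map (algebraMap ℚ ℂ) =
        P' * P.map δ * (A l).map (algebraMap ℚ ℂ) +
          (A l).map (algebraMap ℚ ℂ) * (Q.map δ * Q') := by
    intro l
    have h3 : (P * (A l).map (algebraMap ℚ ℂ) * Q).map δ ∈ VS A := by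
      refine Fin.cases ?_ (fun j => ?_) l
      · obtain ⟨g, hg⟩ := mem_VS.1 hV0
        rw [eq_sub_iff_add_eq] at hg
        rw [← hg, hadd, map_rat_der, add_zero, VS_der, mem_VS]
        exact ⟨_, rfl⟩
      · obtain ⟨g, hg⟩ := mem_VS.1 (hV _ (Submodule.subset_span ⟨j, rfl⟩))
        rw [← hg, VS_der, mem_VS]
        exact ⟨_, rfl⟩
    rw [map_mul_der, map_mul_der, map_rat_der, mul_zero, add_zero] at h3
    have h4 := VS_inv hP1 hP2 hQ1 hQ2 hV h3
    obtain ⟨g, hg⟩ := mem_VS.1 h4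
    refine ⟨g, hg.trans ?_⟩
    have h5 : P' * (P.map δ * (A l).map (algebraMap ℚ ℂ) * Q +
        P * (A l).map (algebraMap ℚ ℂ) * Q.map δ) * Q' =
        P' * P.map δ * (A l).map (algebraMap ℚ ℂ) * (Q * Q') +
        (P' * P) * (A l).map (algebraMap ℚ ℂ) * (Q.map δ * Q') := by
      rw [mul_add, add_mul]
      simp only [Matrix.mul_assoc]
    rw [h5, hQ1, hP2, Matrix.mul_one, Matrix.one_mul]
  choose g hg using key
  obtain ⟨w, hw1, hw2, hw3⟩ : ∃ w : Un n k → ℂ, Pm w = P' * P.map δ ∧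
      Qm w = Q.map δ * Q' ∧ ∀ i l, Cm w i l = g l i :=
    ⟨Sum.elim (fun u => (P' * P.map δ) u.1 u.2) (Sum.elim (fun u => (Q.map δ * Q') u.1 u.2)
      fun u => g u.2 u.1), rfl, rfl, fun _ _ => rfl⟩
  have hw : eqn A w = 0 := by
    funext l
    show Pm w * (A l).map (algebraMap ℚ ℂ) + (A l).map (algebraMap ℚ ℂ) * Qm w -
      ∑ i, Cm w i l • (A i.succ).map (algebraMap ℚ ℂ) = 0
    rw [hw1, hw2, ← hg l, sub_eq_zero]
    refine Finset.sum_congr rfl fun i _ => ?_
    rw [hw3]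
  -- the relation
  have hrel : ∑ i, (dir (pt J x l) w i + δ (pt J x l i)) •
      (A i.succ).map (algebraMap ℚ ℂ) = 0 := by
    simp only [add_smul, Finset.sum_add_distrib]
    rw [← eqn_Mx A hw, hw1, hw2]
    have h3 : (Mx A (pt J x l)).map δ =
        ∑ i, δ (pt J x l i) • (A i.succ).map (algebraMap ℚ ℂ) := by
      rw [Mx, hadd, map_rat_der, zero_add, VS_der]
    have h4 : (P * Mx A (pt J x l) * Q).map δ = 0 := by
      ext a b
      exact h2 a b
    rw [map_mul_der, map_mul_der] at h4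
    rw [← h3]
    have h5 : P' * P.map δ * Mx A (pt J x l) + Mx A (pt J x l) * (Q.map δ * Q') +
        (Mx A (pt J x l)).map δ =
        P' * ((P.map δ * Mx A (pt J x l) + P * (Mx A (pt J x l)).map δ) * Q +
          P * Mx A (pt J x l) * Q.map δ) * Q' := by
      have h6 : P' * ((P.map δ * Mx A (pt J x l) + P * (Mx A (pt J x l)).map δ) * Q +
          P * Mx A (pt J x l) * Q.map δ) * Q' =
          P' * P.map δ * Mx A (pt J x l) * (Q * Q') +
          (P' * P) * (Mx A (pt J x l)).map δ * (Q * Q') +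
          (P' * P) * Mx A (pt J x l) * (Q.map δ * Q') := by
        simp only [mul_add, add_mul, Matrix.mul_assoc]
      rw [h6, hQ1, hP2]
      simp only [Matrix.mul_one, Matrix.one_mul]
      abel
    rw [h5, h4, mul_zero, zero_mul]
  -- the correction by the relation
  obtain ⟨w', hw1', hw2', hw3', hw4'⟩ : ∃ w' : Un n k → ℂ, Pm w' = Pm w ∧ Qm w' = Qm w ∧
      (∀ i, Cm w' i 0 = Cm w i 0 - (dir (pt J x l) w i + δ (pt J x l i))) ∧
      ∀ i (j : Fin k), Cm w' i j.succ = Cm w i j.succ :=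
    ⟨Sum.elim (fun u => w (Sum.inl u)) (Sum.elim (fun u => w (Sum.inr (Sum.inl u)))
      fun u => Fin.cases (motive := fun _ => ℂ)
        (Cm w u.1 0 - (dir (pt J x l) w u.1 + δ (pt J x l u.1)))
        (fun j => Cm w u.1 j.succ) u.2), rfl, rfl, fun _ => rfl, fun _ _ => rfl⟩
  have hdir : ∀ i, dir (pt J x l) w' i = - δ (pt J x l i) := by
    intro i
    have h3 : ∀ w : Un n k → ℂ, dir (pt J x l) w i =
      Cm w i 0 + ∑ j, Cm w i j.succ * pt J x l j := fun _ => rfl
    have h4 := h3 w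
    rw [h3, hw3']
    simp only [hw4']
    rw [h4]
    ring
  refine ⟨w', ?_, ?_, ?_⟩
  · funext l
    have h3 : ∀ (w : Un n k → ℂ) (l : Fin (k + 1)), eqn A w l =
      Pm w * (A l).map (algebraMap ℚ ℂ) + (A l).map (algebraMap ℚ ℂ) * Qm w -
        ∑ i, Cm w i l • (A i.succ).map (algebraMap ℚ ℂ) := fun _ _ => rfl
    have h4 := congrFun hw l
    rw [h3] at h4 ⊢
    rw [hw1', hw2', ← h4]
    congr 1
    refine Fin.cases ?_ (fun j => ?_) l
    · simp only [hw3', sub_smul, Finset.sum_sub_distrib]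
      rw [hrel, sub_zero]
    · simp only [hw4']
  · intro i hi
    rw [hdir, pt, dif_neg hi, Derivation.map_algebraMap, neg_zero]
  · intro h0
    have h3 := congrFun h0 i₀.1
    rw [hdir, pt, dif_pos i₀.2, Pi.zero_apply] at h3
    change - δ (l i₀) = 0 at h3
    rw [h1] at h3
    norm_num at h3

end Pool.Agent.L5helper60.MO
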